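import Pool.Agent.H24.SCG2.Stmts5

/-!
Project SCG3: statements of the modules for even `q` which are not squares.
-/

namespace Pool.SCG

open Matrix

/-- characteristic two, not a square -/
def EvN (F : Type*) [Field F] : Prop := (2 : F) = 0 ∧ ¬ IsSquare (Nat.card F)

/-- `x` is the elation with centre `u` and axis `φ` -/
structure El {F : Type*} [Field F] (x : Cor F) (u φ : Fin 3 → F) : Prop where
  u0 : u ≠ 0
  p0 : φ ≠ 0
  pu : φ ⬝ᵥ u = 0
  is : Is x false (1 + vecMulVec u φ)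

/-- `x` is the polarity of the symmetric matrix `S` -/
structure Pl {F : Type*} [Field F] (x : Cor F) (S : Matrix (Fin 3) (Fin 3) F) : Prop where
  sym : S.transpose = S
  is : Is x true S

/-- `x` is an involution -/
def Iv {F : Type*} [Field F] (x : Cor F) : Prop := x ≠ 1 ∧ x * x = 1

/-! ### basic facts -/

/-- arithmetic -/
def EARStmt : Prop := ∀ (F : Type) [Field F] [Finite F], EvN F →
  (∀ x : F, ∃ y : F, y ^ 2 = x) ∧ (∀ x : F, ∃ y : F, y ^ 3 = x) ∧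
  (∀ x : F, x ^ 3 = 1 → x = 1) ∧
  (Nat.card F ≠ 2 → ∃ β : F, β ≠ 0 ∧ β ^ 3 ≠ 1 ∧ ∀ x : F, x ≠ 0 → ∃ n : ℕ, (β ^ 3) ^ n = x)

/-- involutions -/
def EINVStmt : Prop := ∀ (F : Type) [Field F], (2 : F) = 0 → ∀ x : Cor F, Iv x →
  (∃ u φ : Fin 3 → F, El x u φ) ∨ ∃ S : Matrix (Fin 3) (Fin 3) F, Pl x S

/-- commuting elations -/
def EC1Stmt : Prop := ∀ (F : Type) [Field F] (x y : Cor F) (u φ v ψ : Fin 3 → F),
  El x u φ → El y v ψ → (x * y = y * x ↔ φ ⬝ᵥ v = 0 ∧ ψ ⬝ᵥ u = 0)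

/-- an elation commutes with a polarity -/
def EC2Stmt : Prop := ∀ (F : Type) [Field F], (2 : F) = 0 →
  ∀ (x y : Cor F) (u φ : Fin 3 → F) (S : Matrix (Fin 3) (Fin 3) F), El x u φ → Pl y S →
    (x * y = y * x ↔ ∃ c : F, c ≠ 0 ∧ S *ᵥ u = c • φ)

/-- commuting polarities -/
def EC3Stmt : Prop := ∀ (F : Type) [Field F], (2 : F) = 0 → (∀ x : F, ∃ y : F, y ^ 2 = x) →
  ∀ (x y : Cor F) (S T : Matrix (Fin 3) (Fin 3) F), Pl x S → Pl y T →
    (x * y = y * x ↔
      ∃ χ : Fin 3 → F, T = S + vecMulVec χ χ ∧ χ ⬝ᵥ (adjugate S *ᵥ χ) = 0)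

/-- the absolute points are on a line -/
def EABSStmt : Prop := ∀ (F : Type) [Field F], (2 : F) = 0 → (∀ x : F, ∃ y : F, y ^ 2 = x) →
  ∀ (S : Matrix (Fin 3) (Fin 3) F) (u v w : Fin 3 → F), S.transpose = S → S.det ≠ 0 →
    u ⬝ᵥ (S *ᵥ u) = 0 → v ⬝ᵥ (S *ᵥ v) = 0 → w ⬝ᵥ (S *ᵥ w) = 0 →
    (Matrix.of ![u, v, w]).det = 0

/-- products of two elations -/
def EODDStmt : Prop := ∀ (F : Type) [Field F] [Finite F], (2 : F) = 0 →
  ∀ (x y : Cor F) (u φ v ψ : Fin 3 → F), El x u φ → El y v ψ → φ ⬝ᵥ v ≠ 0 → ψ ⬝ᵥ u ≠ 0 →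
    Odd (orderOf (x * y))

/-- an elation and a polarity in the centraliser of a polarity -/
def EMIXStmt : Prop := ∀ (F : Type) [Field F] [Finite F], EvN F → ∀ a x y : Cor F,
  Iv a → Iv x → Iv y → a.s = true → x.s ≠ y.s → a * x = x * a → a * y = y * a →
  x * y ≠ y * x → a ∈ Subgroup.closure ({x, y} : Set (Cor F))

/-! ### strings of rank five -/

def EW1Stmt : Prop := ∀ (F : Type) [Field F] [Finite F], EvN F → ∀ a b c d e : Cor F,
  Iv a → Iv b → Iv c → Iv d → Iv e → a.s = true → c.s = false → d.s = false → e.s = false →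
  a * c = c * a → a * d = d * a → a * e = e * a → b * d = d * b → b * e = e * b →
  d * e ≠ e * d → b * c = c * b

def EW2Stmt : Prop := ∀ (F : Type) [Field F] [Finite F], EvN F → ∀ a b d e : Cor F,
  Iv a → Iv b → Iv d → Iv e → a.s = true → b.s = true → d.s = true → e.s = true →
  a * d = d * a → a * e = e * a → b * d = d * b → b * e = e * b →
  d * e ≠ e * d → a * b = b * a

def EW3Stmt : Prop := ∀ (F : Type) [Field F] [Finite F], EvN F → ∀ a b c e : Cor F,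
  Iv a → Iv b → Iv c → Iv e → a.s = false → c.s = true → e.s = false →
  a * c = c * a → a * e = e * a → c * e = e * c → b * e = e * b → a * b = b * a

def EW4Stmt : Prop := ∀ (F : Type) [Field F] [Finite F], EvN F → ∀ a b d e : Cor F,
  Iv a → Iv b → Iv d → Iv e → a.s = false → b.s = true → d.s = true → e.s = false →
  a * d = d * a → a * e = e * a → b * d = d * b → b * e = e * b → a * b = b * a

def EW5Stmt : Prop := ∀ (F : Type) [Field F] [Finite F], EvN F → ∀ a b d e : Cor F,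
  Iv a → Iv b → Iv d → Iv e → a.s = false → b.s = true → d.s = false → e.s = false →
  a * d = d * a → a * e = e * a → b * d = d * b → b * e = e * b →
  d * e ≠ e * d → a * b = b * a

/-- a string of rank five has no polarities -/
def EW6Stmt : Prop := ∀ (F : Type) [Field F] [Finite F], EvN F → ∀ a b c d e : Cor F,
  Str5w a b c d e →
    a.s = false ∧ b.s = false ∧ c.s = false ∧ d.s = false ∧ e.s = false

/-! ### irreducibility, strings of elations -/

def ENCStmt : Prop := ∀ (F : Type) [Field F] [Finite F], EvN F → ∀ x y : Cor F, Iv x → Iv y →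
  ∃ g : SL3 F, (inn g * x * (inn g)⁻¹) * y ≠ y * (inn g * x * (inn g)⁻¹)

def EIRRStmt : Prop := ∀ (F : Type) [Field F] [Finite F], EvN F →
  ∀ (r : ℕ) (ρ : Fin r → Cor F), (∀ i, Iv (ρ i)) →
    (∀ i j : Fin r, i.val + 2 ≤ j.val → ρ i * ρ j = ρ j * ρ i) →
    (∀ m : SL3 F, inn m ∈ Subgroup.closure (Set.range ρ)) →
    ∀ i j : Fin r, i.val + 1 = j.val → ρ i * ρ j ≠ ρ j * ρ i

/-- in a string of elations the elations with even index have a common axis and also those with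
odd index, or the same for the centres -/
def EALTStmt : Prop := ∀ (F : Type) [Field F] (r : ℕ) (ρ : Fin r → Cor F)
  (u φ : Fin r → Fin 3 → F), (∀ i, El (ρ i) (u i) (φ i)) →
    (∀ i j : Fin r, i.val + 2 ≤ j.val → ρ i * ρ j = ρ j * ρ i) →
    (∀ i j : Fin r, i.val + 1 = j.val → ρ i * ρ j ≠ ρ j * ρ i) →
    (∀ i j : Fin r, i.val % 2 = j.val % 2 → ∃ c : F, φ j = c • φ i) ∨
    (∀ i j : Fin r, i.val % 2 = j.val % 2 → ∃ c : F, u j = c • u i)

/-- strings of elations do not generate `SL(3,F)` -/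
def EBVStmt : Prop := ∀ (F : Type) [Field F] [Finite F], EvN F →
  ∀ (r : ℕ) (ρ : Fin r → Cor F), (∀ i, Iv (ρ i)) → (∀ i, (ρ i).s = false) →
    (∀ i j : Fin r, i.val + 2 ≤ j.val → ρ i * ρ j = ρ j * ρ i) →
    (∀ i j : Fin r, i.val + 1 = j.val → ρ i * ρ j ≠ ρ j * ρ i) →
    ∃ m : SL3 F, inn m ∉ Subgroup.closure (Set.range ρ)

/-- involutions of `AutG F` -/
def EAUIStmt : Prop := ∀ (F : Type) [Field F] [Finite F], EvN F → ∀ α ∈ AutG F, α * α = 1 →
  α ∈ (iota F).range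

/-- `iota` is injective, its range is `GraphExt F` -/
def EIOTStmt : Prop := ∀ (F : Type) [Field F], (∀ x : F, x ^ 3 = 1 → x = 1) →
  Function.Injective (iota F) ∧ (iota F).range = GraphExt F ∧
    (∀ m : SL3 F, iota F (inn m) = MulAut.conj m)

/-- normal form of symmetric matrices -/
def ENFStmt : Prop := ∀ (F : Type) [Field F], (2 : F) = 0 → (∀ x : F, ∃ y : F, y ^ 2 = x) →
  ∀ S : Matrix (Fin 3) (Fin 3) F, S.transpose = S → S.det = 1 →
    ∃ P : SL3 F, (P : Matrix (Fin 3) (Fin 3) F).transpose * S * (P : Matrix (Fin 3) (Fin 3) F) = 1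

/-! ### `q = 2` -/

def EQAStmt : Prop := ∀ (F : Type) [Field F] [Finite F], Nat.card F = 2 → ∀ a b d : Cor F,
  Iv a → Iv b → Iv d → d.s = false → a * d = d * a → b * d = d * b → a * b ≠ b * a →
  d ∈ Subgroup.closure ({a, b} : Set (Cor F))

def EQBStmt : Prop := ∀ (F : Type) [Field F] [Finite F], Nat.card F = 2 → ∀ a b c d : Cor F,
  Iv a → Iv b → Iv c → Iv d → a.s = true → b.s = true → c.s = true → d.s = true →
  a * c = c * a → a * d = d * a → b * d = d * b → a * b ≠ b * a → b * c ≠ c * b →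
  c * d ≠ d * c → d ∈ Subgroup.closure ({a, b, c} : Set (Cor F))

/-- there is no string of rank four -/
def EQCStmt : Prop := ∀ (F : Type) [Field F] [Finite F], Nat.card F = 2 → ∀ a b c d : Cor F,
  Iv a → Iv b → Iv c → Iv d → a * c = c * a → a * d = d * a → b * d = d * b →
  a * b ≠ b * a → b * c ≠ c * b → c * d ≠ d * c →
  d ∉ Subgroup.closure ({a, b, c} : Set (Cor F)) →
  a ∉ Subgroup.closure ({b, c, d} : Set (Cor F)) → False

/-- criterion for rank three -/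
def EST3Stmt : Prop := ∀ (G : Type) [Group G] (a b c : G), a ≠ 1 → b ≠ 1 → c ≠ 1 →
  a * a = 1 → b * b = 1 → c * c = 1 → a * c = c * a → a ≠ b → b ≠ c →
  (∀ x ∈ Subgroup.closure ({a, b} : Set G), x ∈ Subgroup.closure ({b, c} : Set G) →
    x ∈ Subgroup.closure ({b} : Set G)) →
  IsStringC 3 ![a, b, c]

/-- existence in rank three -/
def EQXStmt : Prop := ∀ (F : Type) [Field F] [Finite F], Nat.card F = 2 →
  HasStringC (GraphExt F) 3

/-- the upper bound for all groups between -/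
def EUPStmt : Prop := ∀ (F : Type) [Field F] [Finite F], EvN F →
  ∀ (G : Subgroup (MulAut (SL3 F))) (r : ℕ), Inn F ≤ G → G ≤ AutG F → HasStringC G r →
    G = GraphExt F ∧ r ≤ 4 ∧ (Nat.card F = 2 → r ≤ 3)

/-! ### existence for `q ≥ 8` -/

/-- the generators -/
structure GensE {F : Type*} [Field F] (β : F) (a b c d : Cor F) : Prop where
  ha : Is a true (dg 1 1 1)
  hb : Is b true (dg β β⁻¹ 1)
  hc : Is c true !![1 + (β + β⁻¹), 0, β + β⁻¹; 0, 1, 0; β + β⁻¹, 0, 1 + (β + β⁻¹)]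
  hd : Is d true !![0, 1, 0; 1, 0, 0; 0, 0, 1]

def EYRStmt : Prop := ∀ (F : Type) [Field F] (β : F), (2 : F) = 0 → β ≠ 0 → β ^ 3 ≠ 1 →
  ∃ a b c d : Cor F, GensE β a b c d ∧ a ≠ 1 ∧ b ≠ 1 ∧ c ≠ 1 ∧ d ≠ 1 ∧
    a * a = 1 ∧ b * b = 1 ∧ c * c = 1 ∧ d * d = 1 ∧
    a * c = c * a ∧ a * d = d * a ∧ b * d = d * b ∧ a ≠ b ∧ b ≠ c ∧ c ≠ d

/-- the powers of `b * c`: homologies -/
def EYPStmt : Prop := ∀ (F : Type) [Field F] (β : F), (2 : F) = 0 → β ≠ 0 → β ^ 3 ≠ 1 →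
  ∀ a b c d : Cor F, GensE β a b c d → ∀ k : ℕ,
    Is ((b * c) ^ k) false (β ^ k • (1 + vecMulVec
      (((β⁻¹ ^ (3 * k) - 1) * (1 + β + β ^ 2)⁻¹) • ![1 + β, 0, β]) ![1 + β, 0, 1]))

/-- first and second intersection condition -/
def EYSStmt : Prop := ∀ (F : Type) [Field F] (β : F), (2 : F) = 0 → β ≠ 0 → β ^ 3 ≠ 1 →
  ∀ a b c d : Cor F, GensE β a b c d →
    (∀ k : ℕ, (b * c) ^ k * d = d * (b * c) ^ k → (b * c) ^ k = 1) ∧
    (∀ k : ℕ, (b * c) ^ k * a = a * (b * c) ^ k → (b * c) ^ k = 1)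

/-- third intersection condition -/
def EYIStmt : Prop := ∀ (F : Type) [Field F] (β : F), (2 : F) = 0 → β ≠ 0 → β ^ 3 ≠ 1 →
  (∀ x : F, x ^ 3 = 1 → x = 1) → (∀ x : F, x ≠ 0 → ∃ n : ℕ, (β ^ 3) ^ n = x) →
  ∀ a b c d : Cor F, GensE β a b c d →
    (∀ x ∈ Subgroup.closure ({a, b, c} : Set (Cor F)),
      x ∈ Subgroup.closure ({b, c, d} : Set (Cor F)) →
      x ∈ Subgroup.closure ({b, c} : Set (Cor F)))

/-- generation -/
def EYGStmt : Prop := ∀ (F : Type) [Field F] (β : F), (2 : F) = 0 → β ≠ 0 → β ^ 3 ≠ 1 →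
  (∀ x : F, x ≠ 0 → ∃ n : ℕ, (β ^ 3) ^ n = x) →
  ∀ a b c d : Cor F, GensE β a b c d → Subgroup.closure ({a, b, c, d} : Set (Cor F)) = ⊤

/-- existence in rank four -/
def EYEStmt : Prop := ∀ (F : Type) [Field F] [Finite F], EvN F → Nat.card F ≠ 2 →
  HasStringC (GraphExt F) 4

/-! ### the final theorems -/

/-- even `q`, not a square -/
def FINEStmt : Prop := ∀ (F : Type) [Field F] [Finite F], EvN F →
  (∀ G : Subgroup (MulAut (SL3 F)), Inn F ≤ G → G ≤ AutG F →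
    ((∃ r, HasStringC G r) ↔ Adm G)) ∧
  (∀ G : Subgroup (MulAut (SL3 F)), Adm G → Inn F ≤ G ∧ G ≤ AutG F ∧
    IsGreatest {r : ℕ | HasStringC G r} (if Nat.card F = 2 then 3 else 4))

/-- all `q` which are not squares -/
def FINNStmt : Prop := ∀ (F : Type) [Field F] [Finite F], ¬ IsSquare (Nat.card F) →
  (∀ G : Subgroup (MulAut (SL3 F)), Inn F ≤ G → G ≤ AutG F →
    ((∃ r, HasStringC G r) ↔ Adm G)) ∧
  (∀ G : Subgroup (MulAut (SL3 F)), Adm G → Inn F ≤ G ∧ G ≤ AutG F ∧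
    IsGreatest {r : ℕ | HasStringC G r} (if Nat.card F = 2 then 3 else 4))

/-- the final theorem for `PSL(3,F)` -/
def FNNPStmt : Prop := ∀ (F : Type) [Field F] [Finite F], ¬ IsSquare (Nat.card F) →
  (∀ G : Subgroup (MulAut (PSL3 F)), InnP F ≤ G → G ≤ AutP F →
    ((∃ r, HasStringC G r) ↔ (G = DiagP F ∨ ∃ P : GL (Fin 3) F, G = (GraphP F).map
      (MulAut.conj (indAut F (diagAut P))).toMonoidHom))) ∧
  (∀ G : Subgroup (MulAut (PSL3 F)), (G = DiagP F ∨ ∃ P : GL (Fin 3) F, G = (GraphP F).map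
      (MulAut.conj (indAut F (diagAut P))).toMonoidHom) →
    InnP F ≤ G ∧ G ≤ AutP F ∧
      IsGreatest {r : ℕ | HasStringC G r} (if Nat.card F = 2 then 3 else 4))

end Pool.SCG
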