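import Pool.Agent.H24.SCG3.Lin

/-! Project SCG3, row EABS: the absolute points are on a line. -/

namespace Pool.SCG

open Matrix

theorem eabs_thm : EABSStmt := by
  intro F _ h2 hsq S u v w hS hdet hu hv hw
  obtain ⟨r0, hr0⟩ := hsq (S 0 0)
  obtain ⟨r1, hr1⟩ := hsq (S 1 1)
  obtain ⟨r2, hr2⟩ := hsq (S 2 2)
  have s01 : S 1 0 = S 0 1 := congrFun (congrFun hS 0) 1
  have s02 : S 2 0 = S 0 2 := congrFun (congrFun hS 0) 2
  have s12 : S 2 1 = S 1 2 := congrFun (congrFun hS 1) 2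
  have key : ∀ x : Fin 3 → F, x ⬝ᵥ (S *ᵥ x) = 0 → ![r0, r1, r2] ⬝ᵥ x = 0 := by
    intro x hx
    rw [dot3'] at hx ⊢
    simp only [Matrix.mulVec, dot3', s01, s02, s12] at hx
    have h3 : (r0 * x 0 + r1 * x 1 + r2 * x 2) ^ 2 = 0 := by
      linear_combination hx + (x 0) ^ 2 * hr0 + (x 1) ^ 2 * hr1 + (x 2) ^ 2 * hr2 +
        (r0 * x 0 * r1 * x 1 + r0 * x 0 * r2 * x 2 + r1 * x 1 * r2 * x 2 -
          S 0 1 * x 0 * x 1 - S 0 2 * x 0 * x 2 - S 1 2 * x 1 * x 2) * h2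
    simpa using (pow_eq_zero_iff (two_ne_zero)).1 h3
  by_contra hne
  have h0 := kill3 hne (key u hu) (key v hv) (key w hw)
  have e0 : r0 = 0 := congrFun h0 0
  have e1 : r1 = 0 := congrFun h0 1
  have e2 : r2 = 0 := congrFun h0 2
  apply hdet
  rw [Matrix.det_fin_three, s01, s02, s12, ← hr0, ← hr1, ← hr2, e0, e1, e2]
  linear_combination (S 0 1 * S 0 2 * S 1 2) * h2

end Pool.SCG
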