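import Pool.Agent.H24.SCG3.Stmts6
import Mathlib.FieldTheory.Finite.Basic

/-! Project SCG3, row EAR: arithmetic. -/

namespace Pool.SCG

theorem ear_mod (k : ℕ) : 2 ^ (2 * k + 1) % 3 = 2 := by
  induction k with
  | zero => rfl
  | succ k ih =>
    have : 2 ^ (2 * (k + 1) + 1) = 4 * 2 ^ (2 * k + 1) := by ring
    rw [this, Nat.mul_mod, ih]

theorem ear_thm : EARStmt := by
  intro F _ _ hF
  obtain ⟨h2, hns⟩ := hF
  have : Fintype F := Fintype.ofFinite F
  have hchar : CharP F (ringChar F) := ringChar.charP F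
  obtain ⟨n, hp, hcard⟩ := FiniteField.card F (ringChar F)
  have hp2 : ringChar F = 2 := by
    have h1 : ((2 : ℕ) : F) = 0 := by exact_mod_cast h2
    rw [CharP.cast_eq_zero_iff F (ringChar F)] at h1
    exact (Nat.prime_dvd_prime_iff_eq hp Nat.prime_two).1 h1
  rw [hp2] at hcard
  have hNc : Nat.card F = 2 ^ (n : ℕ) := by rw [Nat.card_eq_fintype_card, hcard]
  -- `n` is odd
  obtain ⟨k, hk⟩ : ∃ k, (n : ℕ) = 2 * k + 1 := by
    rcases Nat.even_or_odd (n : ℕ) with ⟨k, hk⟩ | ⟨k, hk⟩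
    · exfalso
      apply hns
      rw [hNc, hk, pow_add]
      exact ⟨2 ^ k, rfl⟩
    · exact ⟨k, hk⟩
  have hq3 : Nat.card F % 3 = 2 := by rw [hNc, hk]; exact ear_mod k
  have hunits : Nat.card Fˣ = Nat.card F - 1 := by
    rw [Nat.card_units]
  have hqpos : 2 ≤ Nat.card F := by
    rw [hNc, hk, pow_succ]
    have : 0 < 2 ^ (2 * k) := by positivity
    omega
  have hcop : (Nat.card Fˣ).Coprime 3 := by
    rw [hunits]
    have h3 : ¬ 3 ∣ (Nat.card F - 1) := by omega
    exact ((Nat.Prime.coprime_iff_not_dvd Nat.prime_three).2 h3).symm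
  have hcube : ∀ x : F, x ^ 3 = 1 → x = 1 := by
    intro x hx
    have hx0 : x ≠ 0 := by
      rintro rfl
      norm_num at hx
    set y : Fˣ := Units.mk0 x hx0 with hy
    have hy3 : y ^ 3 = 1 := by
      apply Units.ext
      rw [Units.val_pow_eq_pow_val, hy, Units.val_mk0, hx, Units.val_one]
    have h1 : orderOf y ∣ 3 := orderOf_dvd_of_pow_eq_one hy3
    have h3 : orderOf y ∣ Nat.card Fˣ := orderOf_dvd_natCard y
    have h4 : orderOf y = 1 := Nat.dvd_one.1 (hcop ▸ Nat.dvd_gcd h3 h1)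
    rw [orderOf_eq_one_iff] at h4
    have := congrArg Units.val h4
    rwa [hy, Units.val_mk0, Units.val_one] at this
  have hcinj : ∀ x y : Fˣ, x ^ 3 = y ^ 3 → x = y := by
    intro x y h
    have h1 : ((x : F) * ((y⁻¹ : Fˣ) : F)) ^ 3 = 1 := by
      have : (x * y⁻¹) ^ 3 = 1 := by
        rw [mul_pow, h, ← mul_pow, mul_inv_cancel, one_pow]
      have h3 := congrArg Units.val this
      simpa using h3
    have h3 := hcube _ h1
    have h4 : x * y⁻¹ = 1 := by
      apply Units.ext
      rw [Units.val_mul, h3, Units.val_one]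
    exact mul_inv_eq_one.1 h4
  have hcsurj : ∀ x : Fˣ, ∃ y : Fˣ, y ^ 3 = x := by
    have hinj : Function.Injective (fun x : Fˣ => x ^ 3) := fun x y h => hcinj x y h
    intro x
    exact (Finite.injective_iff_surjective.1 hinj) x
  refine ⟨?_, ?_, hcube, ?_⟩
  · have hinj : Function.Injective (fun x : F => x ^ 2) := by
      intro x y h
      have h1 : x ^ 2 = y ^ 2 := h
      have h3 : (x - y) ^ 2 = 0 := by linear_combination h1 + (y ^ 2 - x * y) * h2
      exact sub_eq_zero.1 ((pow_eq_zero_iff (two_ne_zero)).1 h3)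
    intro x
    exact (Finite.injective_iff_surjective.1 hinj) x
  · intro x
    by_cases hx : x = 0
    · exact ⟨0, by rw [hx]; norm_num⟩
    · obtain ⟨y, hy⟩ := hcsurj (Units.mk0 x hx)
      refine ⟨(y : F), ?_⟩
      have := congrArg Units.val hy
      rwa [Units.val_pow_eq_pow_val, Units.val_mk0] at this
  · intro hcard2
    obtain ⟨g, hg⟩ := IsCyclic.exists_generator (α := Fˣ)
    have hgen : ∀ x : F, x ≠ 0 → ∃ n : ℕ, ((g : F) ^ 3) ^ n = x := by
      intro x hx
      obtain ⟨y, hy⟩ := hcsurj (Units.mk0 x hx)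
      obtain ⟨m, hm⟩ := mem_powers_iff_mem_zpowers.2 (hg y)
      refine ⟨m, ?_⟩
      have h1 : (g ^ 3) ^ m = Units.mk0 x hx := by
        rw [← hy, ← hm, ← pow_mul, ← pow_mul, mul_comm]
      have := congrArg Units.val h1
      rwa [Units.val_pow_eq_pow_val, Units.val_pow_eq_pow_val, Units.val_mk0] at this
    refine ⟨(g : F), g.ne_zero, ?_, hgen⟩
    intro h1
    apply hcard2
    have h3 : ∀ x : F, x ≠ 0 → x = 1 := by
      intro x hx
      obtain ⟨m, hm⟩ := hgen x hx
      rw [← hm, h1, one_pow]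
    have h4 : Nat.card Fˣ = 1 := by
      have : Subsingleton Fˣ := ⟨fun x y => by
        apply Units.ext
        rw [h3 x x.ne_zero, h3 y y.ne_zero]⟩
      exact Nat.card_unique
    omega

end Pool.SCG
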