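import Pool.Agent.H24.SCG3.Stmts6
import Pool.Agent.H24.SCG2.Base3

/-! Project SCG3, rows EC1, EC2: commuting elations and polarities. -/

namespace Pool.SCG

open Matrix

variable {F : Type} [Field F]

theorem vmv_apply (u φ : Fin 3 → F) (i j : Fin 3) : vecMulVec u φ i j = u i * φ j := rfl

/-- `Aᵀ S A` for `A = 1 + u φᵀ` -/
theorem conj_elation (S : M3 F) (hS : S.transpose = S) (u φ : Fin 3 → F) :
    (1 + vecMulVec u φ).transpose * S * (1 + vecMulVec u φ) =
      S + vecMulVec φ (S *ᵥ u) + vecMulVec (S *ᵥ u) φ +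
        (u ⬝ᵥ (S *ᵥ u)) • vecMulVec φ φ := by
  have h1 : (vecMulVec u φ).transpose = vecMulVec φ u := by
    rw [transpose_vecMulVec]
  have h2 : vecMulVec φ u * S = vecMulVec φ (S *ᵥ u) := by
    rw [vecMulVec_mul, ← mulVec_transpose, hS]
  have h3 : S * vecMulVec u φ = vecMulVec (S *ᵥ u) φ := by
    rw [mul_vecMulVec]
  rw [transpose_add, transpose_one, h1, add_mul, one_mul, h2, mul_add, mul_one, add_mul, h3,
    vecMulVec_mul_vecMulVec, dotProduct_comm]
  ext i j
  simp only [Matrix.add_apply, Matrix.smul_apply, vmv_apply, smul_eq_mul, Pi.smul_apply]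
  ring

theorem ec2_thm : EC2Stmt := by
  intro F _ h2 x y u φ S hx hy
  rw [comm_inner_outer_iff hx.is hy.is, conj_elation S hy.sym]
  have hdet : S.det = 1 := hy.is.det
  constructor
  · intro h
    obtain ⟨k, hk⟩ : ∃ k, φ k ≠ 0 := by
      by_contra hno
      push Not at hno
      exact hx.p0 (funext hno)
    have he : ∀ i j, φ i * (S *ᵥ u) j + (S *ᵥ u) i * φ j +
        (u ⬝ᵥ (S *ᵥ u)) * (φ i * φ j) = 0 := by
      intro i j
      have := congrFun (congrFun h i) j
      simp only [Matrix.add_apply, Matrix.smul_apply, vmv_apply, smul_eq_mul] at this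
      linear_combination this
    have hκ : u ⬝ᵥ (S *ᵥ u) = 0 := by
      have h1 := he k k
      have h3 : (u ⬝ᵥ (S *ᵥ u)) * (φ k * φ k) = 0 := by
        linear_combination h1 - (φ k * (S *ᵥ u) k) * h2
      exact (mul_eq_zero.1 h3).resolve_right (mul_ne_zero hk hk)
    have hs : S *ᵥ u = ((S *ᵥ u) k / φ k) • φ := by
      funext i
      have h1 := he i k
      rw [hκ] at h1
      rw [Pi.smul_apply, smul_eq_mul, div_mul_eq_mul_div, eq_div_iff hk]
      linear_combination h1 - (φ i * (S *ᵥ u) k) * h2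
    refine ⟨(S *ᵥ u) k / φ k, ?_, hs⟩
    intro h0
    rw [h0, zero_smul] at hs
    apply hx.u0
    have : adjugate S *ᵥ (S *ᵥ u) = u := by
      rw [mulVec_mulVec, adj_mul_self hdet, one_mulVec]
    rw [← this, hs, mulVec_zero]
  · rintro ⟨c, -, hc⟩
    have h0 : u ⬝ᵥ (S *ᵥ u) = 0 := by
      rw [hc, dotProduct_smul, dotProduct_comm, hx.pu, smul_zero]
    rw [h0, hc]
    ext i j
    simp only [Matrix.add_apply, Matrix.smul_apply, vmv_apply, smul_eq_mul, Pi.smul_apply]
    linear_combination (c * φ i * φ j) * h2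

end Pool.SCG
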