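import Pool.Agent.H24.SCG3.EC2

/-! Project SCG3, row EC3: commuting polarities. -/

namespace Pool.SCG

open Matrix

theorem adj_symm {F : Type} [Field F] {S : M3 F} (h : S.transpose = S) :
    (adjugate S).transpose = adjugate S := by
  rw [adjugate_transpose, h]

theorem ec3_thm (hINV : EINVStmt) : EC3Stmt := by
  intro F _ h2 hsq x y S T hx hy
  have hS1 : S.det = 1 := hx.is.det
  have hadj := adj_symm hx.sym
  constructor
  · intro h
    have hz : Is (x * y) false (adjugate S * T) := by
      have := hx.is.mul_outer hy.is
      rw [hadj] at this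
      simpa using this
    have hzz : (x * y) * (x * y) = 1 := by
      have hxx : x * x = 1 := by
        have h1 : Is (x * x) false (adjugate S * S) := by
          have := hx.is.mul_outer hx.is
          rw [hadj] at this
          simpa using this
        rw [adj_mul_self hS1] at h1
        exact h1.ext is_one
      have hyy : y * y = 1 := by
        have h1 : Is (y * y) false (adjugate T * T) := by
          have := hy.is.mul_outer hy.is
          rw [adj_symm hy.sym] at this
          simpa using this
        rw [adj_mul_self hy.is.det] at h1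
        exact h1.ext is_one
      calc (x * y) * (x * y) = (x * y) * (y * x) := by rw [← h]
        _ = x * (y * y) * x := by group
        _ = 1 := by rw [hyy, mul_one, hxx]
    by_cases h1 : x * y = 1
    · refine ⟨0, ?_, by simp⟩
      rw [h1] at hz
      have := (hz.uniq is_one).2
      have h3 : T = S := by
        calc T = S * (adjugate S * T) := by rw [← mul_assoc, mul_adj_self hS1, one_mul]
          _ = S := by rw [this, mul_one]
      rw [h3]
      ext i j
      simp [vmv_apply]
    · rcases hINV F h2 (x * y) ⟨h1, hzz⟩ with ⟨u, φ, hE⟩ | ⟨R, hR⟩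
      · have hm := (hz.uniq hE.is).2
        have hT : T = S + vecMulVec (S *ᵥ u) φ := by
          calc T = S * (adjugate S * T) := by rw [← mul_assoc, mul_adj_self hS1, one_mul]
            _ = S + vecMulVec (S *ᵥ u) φ := by rw [hm, mul_add, mul_one, mul_vecMulVec]
        obtain ⟨k, hk⟩ : ∃ k, φ k ≠ 0 := by
          by_contra hno
          push Not at hno
          exact hE.p0 (funext hno)
        have hs : ∀ i, (S *ᵥ u) i = ((S *ᵥ u) k / φ k) * φ i := by
          intro i
          have e1 : T.transpose i k = T i k := by rw [hy.sym]
          have e2 : S.transpose i k = S i k := by rw [hx.sym]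
          rw [transpose_apply] at e1 e2
          rw [hT, Matrix.add_apply, Matrix.add_apply, vmv_apply, vmv_apply] at e1
          rw [div_mul_eq_mul_div, eq_div_iff hk]
          linear_combination e2 - e1
        obtain ⟨t, ht⟩ := hsq ((S *ᵥ u) k / φ k)
        have hsv : S *ᵥ u = (t ^ 2) • φ := by
          funext i
          rw [Pi.smul_apply, smul_eq_mul, ht]
          exact hs i
        refine ⟨t • φ, ?_, ?_⟩
        · rw [hT, hsv]
          ext i j
          simp only [Matrix.add_apply, vmv_apply, Pi.smul_apply, smul_eq_mul]
          ring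
        · have hu : adjugate S *ᵥ ((t ^ 2) • φ) = u := by
            rw [← hsv, mulVec_mulVec, adj_mul_self hS1, one_mulVec]
          have : (t • φ) ⬝ᵥ (adjugate S *ᵥ (t • φ)) = φ ⬝ᵥ (adjugate S *ᵥ ((t ^ 2) • φ)) := by
            rw [mulVec_smul, mulVec_smul, dotProduct_smul, dotProduct_smul, smul_dotProduct]
            simp only [smul_eq_mul]
            ring
          rw [this, hu, hE.pu]
      · exact absurd (hz.1.symm.trans hR.is.1) (by simp)
  · rintro ⟨χ, hT, hχ⟩
    rw [comm_outer_iff hx.is hy.is hx.sym hy.sym, hT]
    have e1 : vecMulVec χ χ * adjugate S = vecMulVec χ (adjugate S *ᵥ χ) := by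
      rw [vecMulVec_mul, ← mulVec_transpose, hadj]
    have e2 : vecMulVec χ (adjugate S *ᵥ χ) * S = vecMulVec χ χ := by
      rw [vecMulVec_mul, ← mulVec_transpose, hx.sym, mulVec_mulVec, mul_adj_self hS1,
        one_mulVec]
    rw [add_mul, mul_adj_self hS1, e1, add_mul, one_mul, mul_add, e2, vecMulVec_mul_vecMulVec,
      dotProduct_comm, hχ, zero_smul]
    apply Matrix.ext
    intro i j
    simp only [Matrix.add_apply, vmv_apply, Pi.zero_apply, mul_zero, add_zero]
    linear_combination (χ i * χ j) * h2

end Pool.SCG
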