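import Pool.Agent.H24.SCG3.Stmts6
import Pool.Agent.H24.SCG2.Base3

/-! Project SCG3, row EINV: involutions. -/

namespace Pool.SCG

open Matrix

theorem rank_one_of_sq_zero {F : Type} [Field F] (N : M3 F) (hN : N * N = 0) :
    ∃ u φ : Fin 3 → F, N = vecMulVec u φ := by
  have hle : LinearMap.range (Matrix.mulVecLin N) ≤ LinearMap.ker (Matrix.mulVecLin N) := by
    rintro x ⟨y, rfl⟩
    rw [LinearMap.mem_ker]
    show N *ᵥ (N *ᵥ y) = 0
    rw [mulVec_mulVec, hN, zero_mulVec]
  have h1 := Submodule.finrank_mono hle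
  have h2 := LinearMap.finrank_range_add_finrank_ker (Matrix.mulVecLin N)
  rw [Module.finrank_fintype_fun_eq_card, Fintype.card_fin] at h2
  have h3 : Module.finrank F (LinearMap.range (Matrix.mulVecLin N)) ≤ 1 := by omega
  obtain ⟨v, hv⟩ := (finrank_le_one_iff).1 h3
  have h4 : ∀ j : Fin 3, ∃ c : F, c • (v : Fin 3 → F) = N *ᵥ (Pi.single j 1) := by
    intro j
    obtain ⟨c, hc⟩ := hv ⟨N *ᵥ (Pi.single j 1), ⟨Pi.single j 1, rfl⟩⟩
    exact ⟨c, congrArg Subtype.val hc⟩
  choose φ hφ using h4
  refine ⟨(v : Fin 3 → F), φ, ?_⟩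
  ext i j
  have := congrFun (hφ j) i
  rw [mulVec_single_one] at this
  rw [vecMulVec_apply, mul_comm]
  exact this.symm

theorem einv_thm : EINVStmt := by
  intro F _ h2 x hx
  obtain ⟨hx1, hxx⟩ := hx
  rcases hs : x.s with _ | _
  · left
    have hA : Is x false (x.m : M3 F) := ⟨hs, rfl⟩
    set A : M3 F := (x.m : M3 F) with hAd
    have h1 : A * A = 1 := by
      have h3 := hA.mul_inner hA
      rw [hxx] at h3
      exact (h3.uniq is_one).2
    have hN : (A - 1) * (A - 1) = 0 := by
      have : (A - 1) * (A - 1) = A * A - (A + A) + 1 := by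
        rw [mul_sub, sub_mul, mul_one, one_mul]
        abel
      rw [this, h1]
      ext i j
      simp only [Matrix.add_apply, Matrix.sub_apply, Matrix.zero_apply]
      linear_combination ((1 : M3 F) i j - A i j) * h2
    obtain ⟨u, φ, huφ⟩ := rank_one_of_sq_zero (A - 1) hN
    have hA1 : A = 1 + vecMulVec u φ := by rw [← huφ]; abel
    have hne : A ≠ 1 := by
      intro h
      apply hx1
      exact hA.ext (h ▸ is_one)
    have hu : u ≠ 0 := by
      rintro rfl
      apply hne
      rw [hA1]
      ext i j
      simp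
    have hφ : φ ≠ 0 := by
      rintro rfl
      apply hne
      rw [hA1]
      ext i j
      simp
    refine ⟨u, φ, hu, hφ, ?_, ?_⟩
    · rw [huφ, vecMulVec_mul_vecMulVec] at hN
      obtain ⟨i, hi⟩ : ∃ i, u i ≠ 0 := by
        by_contra hno
        push Not at hno
        exact hu (funext hno)
      obtain ⟨j, hj⟩ : ∃ j, φ j ≠ 0 := by
        by_contra hno
        push Not at hno
        exact hφ (funext hno)
      have := congrFun (congrFun hN i) j
      rw [vecMulVec_apply] at this
      simp only [Pi.smul_apply, smul_eq_mul, Matrix.zero_apply] at this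
      rcases mul_eq_zero.1 this with h | h
      · exact absurd h hi
      · exact (mul_eq_zero.1 h).resolve_right hj
    · rw [← hA1]
      exact hA
  · right
    have hA : Is x true (x.m : M3 F) := ⟨hs, rfl⟩
    refine ⟨(x.m : M3 F), ?_, hA⟩
    set A : M3 F := (x.m : M3 F) with hAd
    have h1 : (adjugate A).transpose * A = 1 := by
      have h3 : Is (x * x) false ((adjugate A).transpose * A) := by simpa using hA.mul_outer hA
      rw [hxx] at h3
      exact (h3.uniq is_one).2
    calc A.transpose = A.transpose * ((adjugate A).transpose * A) := by rw [h1, mul_one]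
      _ = (adjugate A * A).transpose * A := by rw [transpose_mul, mul_assoc]
      _ = A := by rw [adj_mul_self hA.det, transpose_one, one_mul]

end Pool.SCG
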