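import Pool.Agent.H24.SCG3.Stmts6

/-! Project SCG3, row EUP: the upper bound for all groups between. -/

namespace Pool.SCG

open Matrix

theorem eup_thm (hEW6 : EW6Stmt) (hIRR : EIRRStmt) (hBV : EBVStmt) (hAUI : EAUIStmt)
    (hIOT : EIOTStmt) (hQC : EQCStmt) (hAR : EARStmt) : EUPStmt := by
  intro F _ _ hF G r hInn hAut hS
  obtain ⟨ρ, hρ, hgen⟩ := hS
  obtain ⟨-, -, hcube, -⟩ := hAR F hF
  obtain ⟨hinj, hran, hconj⟩ := hIOT F hcube
  have hρG : ∀ i, ρ i ∈ G := fun i => by
    rw [← hgen]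
    exact Subgroup.subset_closure ⟨i, rfl⟩
  have hρ2 : ∀ i, ρ i ≠ 1 ∧ ρ i * ρ i = 1 := by
    intro i
    have h := hρ.invol i
    refine ⟨?_, ?_⟩
    · intro h1
      rw [h1, orderOf_one] at h
      exact absurd h (by norm_num)
    · rw [← pow_two, ← h]
      exact pow_orderOf_eq_one _
  have hx' : ∀ i, ∃ x : Cor F, iota F x = ρ i := fun i =>
    hAUI F hF (ρ i) (hAut (hρG i)) (hρ2 i).2
  choose x hx using hx'
  have hx2 : ∀ i, Iv (x i) := by
    intro i
    refine ⟨?_, ?_⟩
    · intro h
      apply (hρ2 i).1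
      rw [← hx, h, map_one]
    · apply hinj
      rw [map_mul, hx, map_one]
      exact (hρ2 i).2
  have hxc : ∀ i j : Fin r, i.val + 2 ≤ j.val → x i * x j = x j * x i := by
    intro i j hij
    apply hinj
    rw [map_mul, map_mul, hx, hx]
    exact hρ.comm i j hij
  -- images of closures
  have hmap : ∀ I : Set (Fin r),
      (Subgroup.closure (x '' I)).map (iota F) = Subgroup.closure (ρ '' I) := by
    intro I
    rw [MonoidHom.map_closure, ← Set.image_comp]
    have : ((iota F) ∘ x) '' I = ρ '' I := by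
      apply Set.image_congr
      intro i _
      exact hx i
    rw [this]
  have hmem : ∀ (I : Set (Fin r)) (y : Cor F),
      y ∈ Subgroup.closure (x '' I) ↔ iota F y ∈ Subgroup.closure (ρ '' I) := by
    intro I y
    rw [← hmap]
    constructor
    · intro h
      exact ⟨y, h, rfl⟩
    · rintro ⟨z, hz, h⟩
      rwa [← hinj h]
  have hmapr : (Subgroup.closure (Set.range x)).map (iota F) = G := by
    rw [← Set.image_univ, hmap, Set.image_univ, hgen]
  have hmemr : ∀ y : Cor F, y ∈ Subgroup.closure (Set.range x) ↔ iota F y ∈ G := by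
    intro y
    rw [← Set.image_univ, hmem, Set.image_univ, hgen]
  have hinn : ∀ m : SL3 F, inn m ∈ Subgroup.closure (Set.range x) := by
    intro m
    rw [hmemr, hconj]
    exact hInn ⟨m, rfl⟩
  have hirr := hIRR F hF r x hx2 hxc hinn
  -- some `x i` is outer
  have hout : ∃ i, (x i).s = true := by
    by_contra hno
    have hno' : ∀ i, (x i).s = false := fun i => by
      cases h : (x i).s
      · rfl
      · exact absurd ⟨i, h⟩ hno
    obtain ⟨m, hm⟩ := hBV F hF r x hx2 hno' hxc hirr
    exact hm (hinn m)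
  obtain ⟨i0, hi0⟩ := hout
  have htop : Subgroup.closure (Set.range x) = ⊤ := by
    rw [Subgroup.eq_top_iff']
    intro y
    cases hy : y.s with
    | false =>
      have h1 : y = inn y.m := Cor.ext rfl hy
      rw [h1]
      exact hinn _
    | true =>
      have h1 : y = x i0 * inn ((x i0).m⁻¹ * y.m) := by
        apply Cor.ext
        · simp [tw]
        · simp [hi0, hy]
      rw [h1]
      exact Subgroup.mul_mem _ (Subgroup.subset_closure ⟨i0, rfl⟩) (hinn _)
  have hG : G = GraphExt F := by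
    rw [← hran, ← hmapr, htop]
    exact (MonoidHom.range_eq_map _).symm
  -- the intersection property for disjoint sets of generators
  have hdis : ∀ I J : Set (Fin r), (∀ i ∈ I, i ∈ J → False) →
      ∀ y ∈ Subgroup.closure (x '' I), y ∈ Subgroup.closure (x '' J) → y = 1 := by
    intro I J hIJ y hyI hyJ
    have h1 : iota F y ∈ Subgroup.closure (ρ '' I) ⊓ Subgroup.closure (ρ '' J) :=
      ⟨(hmem I y).1 hyI, (hmem J y).1 hyJ⟩
    rw [hρ.inter] at h1
    have h2 : I ∩ J = ∅ := by
      ext i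
      constructor
      · rintro ⟨h3, h4⟩
        exact hIJ i h3 h4
      · intro h3
        exact absurd h3 (Set.notMem_empty i)
    rw [h2, Set.image_empty, Subgroup.closure_empty, Subgroup.mem_bot] at h1
    apply hinj
    rw [h1, map_one]
  have e3 : ∀ i j k : Fin r, ({x i, x j, x k} : Set (Cor F)) = x '' {i, j, k} := by
    intro i j k
    rw [Set.image_insert_eq, Set.image_pair]
  have e4 : ∀ i j k l : Fin r, ({x i, x j, x k, x l} : Set (Cor F)) = x '' {i, j, k, l} := by
    intro i j k l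
    rw [Set.image_insert_eq, Set.image_insert_eq, Set.image_pair]
  refine ⟨hG, ?_, ?_⟩
  · by_contra hr
    have hr5 : 5 ≤ r := by omega
    obtain ⟨s, hs1, hs2, hs3⟩ : ∃ s : ℕ, s ≤ i0.val ∧ i0.val ≤ s + 4 ∧ s + 4 < r := by
      have := i0.2
      by_cases h : i0.val + 4 < r
      · exact ⟨i0.val, le_refl _, by omega, h⟩
      · exact ⟨r - 5, by omega, by omega, by omega⟩
    obtain ⟨f0, h0⟩ : ∃ f : Fin r, f.val = s := ⟨⟨s, by omega⟩, rfl⟩
    obtain ⟨f1, h1⟩ : ∃ f : Fin r, f.val = s + 1 := ⟨⟨s + 1, by omega⟩, rfl⟩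
    obtain ⟨f2, h2⟩ : ∃ f : Fin r, f.val = s + 2 := ⟨⟨s + 2, by omega⟩, rfl⟩
    obtain ⟨f3, h3⟩ : ∃ f : Fin r, f.val = s + 3 := ⟨⟨s + 3, by omega⟩, rfl⟩
    obtain ⟨f4, h4⟩ : ∃ f : Fin r, f.val = s + 4 := ⟨⟨s + 4, by omega⟩, rfl⟩
    have hstr : Str5w (x f0) (x f1) (x f2) (x f3) (x f4) := by
      refine
        { ia := hx2 f0
          ib := hx2 f1
          ic := hx2 f2
          id := hx2 f3
          ie := hx2 f4
          ac := hxc f0 f2 (by omega)
          ad := hxc f0 f3 (by omega)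
          ae := hxc f0 f4 (by omega)
          bd := hxc f1 f3 (by omega)
          be := hxc f1 f4 (by omega)
          ce := hxc f2 f4 (by omega)
          ab := hirr f0 f1 (by omega)
          bc := hirr f1 f2 (by omega)
          cd := hirr f2 f3 (by omega)
          de := hirr f3 f4 (by omega)
          v1 := ?_
          v2 := ?_ }
      · intro h
        rw [e4] at h
        apply (hx2 f4).1
        refine hdis {f4} {f0, f1, f2, f3} ?_ (x f4) ?_ h
        · intro i hi hj
          simp only [Set.mem_insert_iff, Set.mem_singleton_iff] at hi hj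
          rcases hj with hj | hj | hj | hj <;> · rw [hi] at hj; rw [hj] at h4; omega
        · exact Subgroup.subset_closure ⟨f4, rfl, rfl⟩
      · intro h
        rw [e4] at h
        apply (hx2 f0).1
        refine hdis {f0} {f1, f2, f3, f4} ?_ (x f0) ?_ h
        · intro i hi hj
          simp only [Set.mem_insert_iff, Set.mem_singleton_iff] at hi hj
          rcases hj with hj | hj | hj | hj <;> · rw [hi] at hj; rw [hj] at h0; omega
        · exact Subgroup.subset_closure ⟨f0, rfl, rfl⟩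
    obtain ⟨q0, q1, q2, q3, q4⟩ := hEW6 F hF _ _ _ _ _ hstr
    have hcases : i0 = f0 ∨ i0 = f1 ∨ i0 = f2 ∨ i0 = f3 ∨ i0 = f4 := by
      rcases (show i0.val = s ∨ i0.val = s + 1 ∨ i0.val = s + 2 ∨ i0.val = s + 3 ∨
        i0.val = s + 4 by omega) with h | h | h | h | h
      · exact Or.inl (Fin.ext (h.trans h0.symm))
      · exact Or.inr (Or.inl (Fin.ext (h.trans h1.symm)))
      · exact Or.inr (Or.inr (Or.inl (Fin.ext (h.trans h2.symm))))
      · exact Or.inr (Or.inr (Or.inr (Or.inl (Fin.ext (h.trans h3.symm)))))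
      · exact Or.inr (Or.inr (Or.inr (Or.inr (Fin.ext (h.trans h4.symm)))))
    rcases hcases with h | h | h | h | h
    · rw [h, q0] at hi0; exact absurd hi0 (by decide)
    · rw [h, q1] at hi0; exact absurd hi0 (by decide)
    · rw [h, q2] at hi0; exact absurd hi0 (by decide)
    · rw [h, q3] at hi0; exact absurd hi0 (by decide)
    · rw [h, q4] at hi0; exact absurd hi0 (by decide)
  · intro hcard
    by_contra hr
    have hr4 : 4 ≤ r := by omega
    obtain ⟨f0, h0⟩ : ∃ f : Fin r, f.val = 0 := ⟨⟨0, by omega⟩, rfl⟩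
    obtain ⟨f1, h1⟩ : ∃ f : Fin r, f.val = 1 := ⟨⟨1, by omega⟩, rfl⟩
    obtain ⟨f2, h2⟩ : ∃ f : Fin r, f.val = 2 := ⟨⟨2, by omega⟩, rfl⟩
    obtain ⟨f3, h3⟩ : ∃ f : Fin r, f.val = 3 := ⟨⟨3, by omega⟩, rfl⟩
    refine hQC F hcard (x f0) (x f1) (x f2) (x f3) (hx2 f0) (hx2 f1) (hx2 f2) (hx2 f3)
      (hxc f0 f2 (by omega)) (hxc f0 f3 (by omega)) (hxc f1 f3 (by omega))
      (hirr f0 f1 (by omega)) (hirr f1 f2 (by omega)) (hirr f2 f3 (by omega)) ?_ ?_
    · intro h
      rw [e3] at h
      apply (hx2 f3).1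
      refine hdis {f3} {f0, f1, f2} ?_ (x f3) ?_ h
      · intro i hi hj
        simp only [Set.mem_insert_iff, Set.mem_singleton_iff] at hi hj
        rcases hj with hj | hj | hj <;> · rw [hi] at hj; rw [hj] at h3; omega
      · exact Subgroup.subset_closure ⟨f3, rfl, rfl⟩
    · intro h
      rw [e3] at h
      apply (hx2 f0).1
      refine hdis {f0} {f1, f2, f3} ?_ (x f0) ?_ h
      · intro i hi hj
        simp only [Set.mem_insert_iff, Set.mem_singleton_iff] at hi hj
        rcases hj with hj | hj | hj <;> · rw [hi] at hj; rw [hj] at h0; omega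
      · exact Subgroup.subset_closure ⟨f0, rfl, rfl⟩

end Pool.SCG
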