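import Pool.Agent.H24.SCG3.EW5

/-! Project SCG3, row EW1. -/

namespace Pool.SCG

open Matrix

theorem ew1_thm (hINV : EINVStmt) (hC1 : EC1Stmt) (hC2 : EC2Stmt) (hABS : EABSStmt)
    (hAR : EARStmt) : EW1Stmt := by
  intro F _ _ hF a b c d e ia ib ic id ie as cs ds es ac ad ae bd be de
  have h2 := hF.1
  obtain ⟨hsq, -⟩ := hAR F hF
  rcases hbs : b.s with _ | _
  · exact (ew5_false hINV hC1 hC2 F h2 b a d e ib ia id ie hbs as ds es bd be ad ae de).elim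
  obtain ⟨w, χ, hc⟩ := inner_cases hINV h2 ic cs
  obtain ⟨u, φ, hd⟩ := inner_cases hINV h2 id ds
  obtain ⟨v, ψ, he⟩ := inner_cases hINV h2 ie es
  obtain ⟨S, ha⟩ := outer_cases hINV h2 ia as
  obtain ⟨T, hb⟩ := outer_cases hINV h2 ib hbs
  obtain ⟨c1, hc1, hSu⟩ := (hC2 F h2 d a u φ S hd ha).1 ad.symm
  obtain ⟨c2, hc2, hSv⟩ := (hC2 F h2 e a v ψ S he ha).1 ae.symm
  obtain ⟨c3, hc3, hSw⟩ := (hC2 F h2 c a w χ S hc ha).1 ac.symm
  obtain ⟨k, hk, hTu⟩ := (hC2 F h2 d b u φ T hd hb).1 bd.symm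
  obtain ⟨m, hm, hTv⟩ := (hC2 F h2 e b v ψ T he hb).1 be.symm
  have hsym := form_symm ha.sym u v
  rw [hSu, hSv, smul_dotProduct, smul_dotProduct, smul_eq_mul, smul_eq_mul] at hsym
  have hsymT := form_symm hb.sym u v
  rw [hTu, hTv, smul_dotProduct, smul_dotProduct, smul_eq_mul, smul_eq_mul] at hsymT
  have hφv : φ ⬝ᵥ v ≠ 0 := by
    intro h0
    apply de
    rw [hC1 F d e u φ v ψ hd he]
    refine ⟨h0, ?_⟩
    rw [h0, mul_zero] at hsym
    exact (mul_eq_zero.1 hsym.symm).resolve_left hc2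
  have hψu : ψ ⬝ᵥ u ≠ 0 := by
    intro h0
    apply de
    rw [hC1 F d e u φ v ψ hd he]
    refine ⟨?_, h0⟩
    rw [h0, mul_zero] at hsym
    exact (mul_eq_zero.1 hsym).resolve_left hc1
  have habs : ∀ (x ξ : Fin 3 → F) (c : F), ξ ⬝ᵥ x = 0 → S *ᵥ x = c • ξ →
      x ⬝ᵥ (S *ᵥ x) = 0 := by
    intro x ξ c h hx
    rw [hx, dotProduct_smul, dotProduct_comm, h, smul_zero]
  have hdet := hABS F h2 hsq S u v w ha.sym (by rw [ha.is.det]; exact one_ne_zero)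
    (habs u φ c1 hd.pu hSu) (habs v ψ c2 he.pu hSv) (habs w χ c3 hc.pu hSw)
  obtain ⟨α1, α2, α3, hne, hcomb⟩ := dep3 hdet
  have hα3 : α3 ≠ 0 := by
    intro h0
    rw [h0] at hcomb
    have e1 := dot_comb hcomb φ
    have e2 := dot_comb hcomb ψ
    rw [hd.pu] at e1
    rw [he.pu] at e2
    rcases hne with h | h | h
    · apply h
      have : α1 * (ψ ⬝ᵥ u) = 0 := by linear_combination e2
      exact (mul_eq_zero.1 this).resolve_right hψu
    · apply h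
      have : α2 * (φ ⬝ᵥ v) = 0 := by linear_combination e1
      exact (mul_eq_zero.1 this).resolve_right hφv
    · exact h h0
  obtain ⟨x, y, hxy⟩ : ∃ x y : F, w = x • u + y • v := by
    refine ⟨-α3⁻¹ * α1, -α3⁻¹ * α2, ?_⟩
    funext i
    have h1 := congrFun hcomb i
    simp only [Pi.add_apply, Pi.smul_apply, smul_eq_mul, Pi.zero_apply] at h1 ⊢
    have h3 : α3⁻¹ * α3 = 1 := inv_mul_cancel₀ hα3
    linear_combination (-(w i)) * h3 + α3⁻¹ * h1
  have hkm : k * c2 = m * c1 := by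
    have h1 : (k * c2 - m * c1) * (ψ ⬝ᵥ u) = 0 := by
      linear_combination (-k) * hsym + c1 * hsymT
    exact sub_eq_zero.1 ((mul_eq_zero.1 h1).resolve_right hψu)
  have hTw : T *ᵥ w = (k * c1⁻¹ * c3) • χ := by
    have h1 : T *ᵥ w = (k * c1⁻¹) • (S *ᵥ w) := by
      rw [hxy, mulVec_add, mulVec_add, mulVec_smul, mulVec_smul, mulVec_smul, mulVec_smul, hTu,
        hTv, hSu, hSv]
      funext i
      simp only [Pi.add_apply, Pi.smul_apply, smul_eq_mul]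
      have h3 : c1⁻¹ * c1 = 1 := inv_mul_cancel₀ hc1
      linear_combination (-(x * k * φ i)) * h3 + (-(y * ψ i * m)) * h3 -
        (y * ψ i * c1⁻¹) * hkm
    rw [h1, hSw, smul_smul]
  exact ((hC2 F h2 c b w χ T hc hb).2 ⟨k * c1⁻¹ * c3,
    mul_ne_zero (mul_ne_zero hk (inv_ne_zero hc1)) hc3, hTw⟩).symm

end Pool.SCG
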