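import Pool.Agent.H24.SCG3.Lin

/-! Project SCG3, row EW2. -/

namespace Pool.SCG

open Matrix

section

variable {F : Type} [Field F]

/-- the inverse of `S + δ δᵀ` -/
theorem adj_rank_one (h2 : (2 : F) = 0) {S D : M3 F} {δ : Fin 3 → F} (hS : S.transpose = S)
    (hS1 : S.det = 1) (hD1 : D.det = 1) (hD : D = S + vecMulVec δ δ)
    (hδ : δ ⬝ᵥ (adjugate S *ᵥ δ) = 0) :
    adjugate D = adjugate S + vecMulVec (adjugate S *ᵥ δ) (adjugate S *ᵥ δ) := by
  apply adj_unique hD1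
  have hadj : (adjugate S).transpose = adjugate S := by rw [adjugate_transpose, hS]
  have e1 : S *ᵥ (adjugate S *ᵥ δ) = δ := by
    rw [mulVec_mulVec, mul_adj_self hS1, one_mulVec]
  rw [hD, mul_add, add_mul, add_mul, mul_adj_self hS1, mul_vecMulVec, e1, vecMulVec_mul,
    ← mulVec_transpose, hadj, vecMulVec_mul_vecMulVec, hδ, zero_smul]
  apply Matrix.ext
  intro i j
  simp only [Matrix.add_apply, vecMulVec_apply, Pi.zero_apply, mul_zero, add_zero]
  linear_combination (δ i * (adjugate S *ᵥ δ) j) * h2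

end

theorem ew2_thm (hINV : EINVStmt) (hC1 : EC1Stmt) (hC3 : EC3Stmt) (hAR : EARStmt) :
    EW2Stmt := by
  intro F _ _ hF a b d e ia ib id ie as bs ds es ad ae bd be de
  have h2 := hF.1
  obtain ⟨hsq, -⟩ := hAR F hF
  obtain ⟨S, ha⟩ := outer_cases hINV h2 ia as
  obtain ⟨B, hb⟩ := outer_cases hINV h2 ib bs
  obtain ⟨D, hd⟩ := outer_cases hINV h2 id ds
  obtain ⟨E, he⟩ := outer_cases hINV h2 ie es
  obtain ⟨δ, hD, hδ⟩ := (hC3 F h2 hsq a d S D ha hd).1 ad
  obtain ⟨ε, hE, hε⟩ := (hC3 F h2 hsq a e S E ha he).1 ae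
  obtain ⟨β, hB, hβ⟩ := (hC3 F h2 hsq d b D B hd hb).1 bd.symm
  obtain ⟨γ, hB', hγ⟩ := (hC3 F h2 hsq e b E B he hb).1 be.symm
  have hS1 : S.det = 1 := ha.is.det
  have hadj : (adjugate S).transpose = adjugate S := by rw [adjugate_transpose, ha.sym]
  have hinv : ∀ x : Fin 3 → F, S *ᵥ (adjugate S *ᵥ x) = x := by
    intro x
    rw [mulVec_mulVec, mul_adj_self hS1, one_mulVec]
  -- the elations `a d`, `a e`
  have hel : ∀ (y : Cor F) (Y : M3 F) (η : Fin 3 → F), Pl y Y → Y = S + vecMulVec η η →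
      η ⬝ᵥ (adjugate S *ᵥ η) = 0 → η ≠ 0 → El (a * y) (adjugate S *ᵥ η) η := by
    intro y Y η hy hY hη hη0
    refine ⟨?_, hη0, hη, ?_⟩
    · intro h0
      apply hη0
      rw [← hinv η, h0, mulVec_zero]
    · have h1 := ha.is.mul_outer hy.is
      rw [hadj, hY, mul_add, adj_mul_self hS1, mul_vecMulVec] at h1
      simpa using h1
  have hne : ∀ (y : Cor F) (Y : M3 F) (η : Fin 3 → F), Pl y Y → Y = S + vecMulVec η η →
      η = 0 → y = a := by
    intro y Y η hy hY h0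
    refine Is.ext hy.is ?_
    rw [hY, h0]
    have : S + vecMulVec (0 : Fin 3 → F) 0 = S := by
      ext i j
      simp
    rw [this]
    exact ha.is
  have hδ0 : δ ≠ 0 := by
    intro h0
    apply de
    rw [hne d D δ hd hD h0]
    exact ae
  have hε0 : ε ≠ 0 := by
    intro h0
    apply de
    rw [hne e E ε he hE h0]
    exact ad.symm
  have hsym : δ ⬝ᵥ (adjugate S *ᵥ ε) = ε ⬝ᵥ (adjugate S *ᵥ δ) := by
    rw [dotProduct_comm, form_symm hadj, dotProduct_comm]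
  have hω : δ ⬝ᵥ (adjugate S *ᵥ ε) ≠ 0 := by
    intro h0
    have h1 := (hC1 F (a * d) (a * e) _ _ _ _ (hel d D δ hd hD hδ hδ0)
      (hel e E ε he hE hε hε0)).2 ⟨h0, by rw [← hsym]; exact h0⟩
    apply de
    have aa : a * a = 1 := ia.2
    calc d * e = d * (a * a) * e := by rw [aa, mul_one]
      _ = (d * a) * (a * e) := by group
      _ = (a * d) * (a * e) := by rw [ad]
      _ = (a * e) * (a * d) := h1
      _ = (e * a) * (a * d) := by rw [ae]
      _ = e * (a * a) * d := by group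
      _ = e * d := by rw [aa, mul_one]
  -- `β` is in the span of `δ`, `ε`
  have hrel : ∀ i j, δ i * δ j + β i * β j = ε i * ε j + γ i * γ j := by
    intro i j
    have h1 := congrFun (congrFun (hB.symm.trans hB') i) j
    rw [hD, hE] at h1
    simp only [Matrix.add_apply, vecMulVec_apply] at h1
    linear_combination h1
  set p : Fin 3 → F := ![δ 1 * ε 2 - δ 2 * ε 1, δ 2 * ε 0 - δ 0 * ε 2,
    δ 0 * ε 1 - δ 1 * ε 0] with hp
  have hδp : δ 0 * p 0 + δ 1 * p 1 + δ 2 * p 2 = 0 := by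
    simp [hp]; ring
  have hεp : ε 0 * p 0 + ε 1 * p 1 + ε 2 * p 2 = 0 := by
    simp [hp]; ring
  have hap : ∀ i, β i * (β 0 * p 0 + β 1 * p 1 + β 2 * p 2) =
      γ i * (γ 0 * p 0 + γ 1 * p 1 + γ 2 * p 2) := by
    intro i
    linear_combination (p 0) * hrel i 0 + (p 1) * hrel i 1 + (p 2) * hrel i 2 -
      (δ i) * hδp + (ε i) * hεp
  have hβp : β 0 * p 0 + β 1 * p 1 + β 2 * p 2 = 0 := by
    by_contra h0
    have h1 : (β 0 * p 0 + β 1 * p 1 + β 2 * p 2) ^ 2 =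
        (γ 0 * p 0 + γ 1 * p 1 + γ 2 * p 2) ^ 2 := by
      linear_combination (p 0) * hap 0 + (p 1) * hap 1 + (p 2) * hap 2
    have h3 : β 0 * p 0 + β 1 * p 1 + β 2 * p 2 = γ 0 * p 0 + γ 1 * p 1 + γ 2 * p 2 := by
      have h4 : (β 0 * p 0 + β 1 * p 1 + β 2 * p 2 -
          (γ 0 * p 0 + γ 1 * p 1 + γ 2 * p 2)) ^ 2 = 0 := by
        linear_combination h1 - ((β 0 * p 0 + β 1 * p 1 + β 2 * p 2) *
          (γ 0 * p 0 + γ 1 * p 1 + γ 2 * p 2) - (γ 0 * p 0 + γ 1 * p 1 + γ 2 * p 2) ^ 2) * h2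
      exact sub_eq_zero.1 (pow_eq_zero_iff (two_ne_zero) |>.1 h4)
    have h4 : ∀ i, β i = γ i := by
      intro i
      have := hap i
      rw [← h3] at this
      exact mul_right_cancel₀ h0 this
    have h5 : ∀ i j, δ i * δ j = ε i * ε j := by
      intro i j
      have := hrel i j
      rw [h4 i, h4 j] at this
      exact add_right_cancel this
    -- `(δ v_ε)² = (ε v_ε)² = 0`
    apply hω
    have h6 : (δ ⬝ᵥ (adjugate S *ᵥ ε)) ^ 2 = (ε ⬝ᵥ (adjugate S *ᵥ ε)) ^ 2 := by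
      rw [dot3', dot3']
      set w := adjugate S *ᵥ ε
      linear_combination (w 0 * w 0) * h5 0 0 + (w 1 * w 1) * h5 1 1 + (w 2 * w 2) * h5 2 2 +
        (2 * w 0 * w 1) * h5 0 1 + (2 * w 0 * w 2) * h5 0 2 + (2 * w 1 * w 2) * h5 1 2
    rw [hε] at h6
    simpa using h6
  have hdet : (Matrix.of ![δ, ε, β]).det = 0 := by
    rw [Matrix.det_fin_three]
    simp [hp] at hβp ⊢
    linear_combination hβp
  obtain ⟨α1, α2, α3, hne', hcomb⟩ := dep3 hdet
  have hδv : (adjugate S *ᵥ δ) ⬝ᵥ δ = 0 := by rw [dotProduct_comm]; exact hδ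
  have hεv : (adjugate S *ᵥ ε) ⬝ᵥ ε = 0 := by rw [dotProduct_comm]; exact hε
  have hα3 : α3 ≠ 0 := by
    intro h0
    rw [h0] at hcomb
    have e1 := dot_comb hcomb (adjugate S *ᵥ δ)
    have e2 := dot_comb hcomb (adjugate S *ᵥ ε)
    rw [hδv, dotProduct_comm _ ε, ← hsym] at e1
    rw [hεv, dotProduct_comm _ δ] at e2
    rcases hne' with h | h | h
    · apply h
      have : α1 * (δ ⬝ᵥ (adjugate S *ᵥ ε)) = 0 := by linear_combination e2
      exact (mul_eq_zero.1 this).resolve_right hω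
    · apply h
      have : α2 * (δ ⬝ᵥ (adjugate S *ᵥ ε)) = 0 := by linear_combination e1
      exact (mul_eq_zero.1 this).resolve_right hω
    · exact h h0
  obtain ⟨x, y, hxy⟩ : ∃ x y : F, β = x • δ + y • ε := by
    refine ⟨-α3⁻¹ * α1, -α3⁻¹ * α2, ?_⟩
    funext i
    have h1 := congrFun hcomb i
    simp only [Pi.add_apply, Pi.smul_apply, smul_eq_mul, Pi.zero_apply] at h1 ⊢
    have h3 : α3⁻¹ * α3 = 1 := inv_mul_cancel₀ hα3
    linear_combination (-(β i)) * h3 + α3⁻¹ * h1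
  -- the condition on `β`
  rw [adj_rank_one h2 ha.sym hS1 hd.is.det hD hδ, add_mulVec, vecMulVec_mulVec,
    dotProduct_add] at hβ
  have hy0 : y = 0 := by
    have e1 : β ⬝ᵥ (adjugate S *ᵥ β) = 2 * (x * y * (δ ⬝ᵥ (adjugate S *ᵥ ε))) := by
      rw [hxy, mulVec_add, mulVec_smul, mulVec_smul, dotProduct_add, add_dotProduct,
        add_dotProduct, smul_dotProduct, smul_dotProduct, smul_dotProduct, smul_dotProduct,
        dotProduct_smul, dotProduct_smul, dotProduct_smul, dotProduct_smul, hδ, hε, ← hsym]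
      simp only [smul_eq_mul]
      ring
    have e2 : (adjugate S *ᵥ δ) ⬝ᵥ β = y * (δ ⬝ᵥ (adjugate S *ᵥ ε)) := by
      rw [hxy, dotProduct_add, dotProduct_smul, dotProduct_smul, hδv, dotProduct_comm _ ε,
        ← hsym]
      simp
    rw [e1, h2] at hβ
    have e3 : (y * (δ ⬝ᵥ (adjugate S *ᵥ ε))) ^ 2 = 0 := by
      rw [← e2]
      have e4 : β ⬝ᵥ (MulOpposite.op ((adjugate S *ᵥ δ) ⬝ᵥ β) • (adjugate S *ᵥ δ)) =
          ((adjugate S *ᵥ δ) ⬝ᵥ β) ^ 2 := by
        rw [dotProduct_smul, dotProduct_comm β]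
        simp only [MulOpposite.smul_eq_mul_unop, MulOpposite.unop_op]
        ring
      rw [← e4]
      linear_combination hβ
    have e5 := (pow_eq_zero_iff (two_ne_zero)).1 e3
    exact (mul_eq_zero.1 e5).resolve_right hω
  rw [hy0, zero_smul, add_zero] at hxy
  rw [hC3 F h2 hsq a b S B ha hb]
  refine ⟨(1 + x) • δ, ?_, ?_⟩
  · rw [hB, hD, hxy]
    ext i j
    simp only [Matrix.add_apply, vecMulVec_apply, Pi.smul_apply, smul_eq_mul]
    linear_combination (-(x * δ i * δ j)) * h2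
  · rw [mulVec_smul, dotProduct_smul, smul_dotProduct, hδ]
    simp

end Pool.SCG
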