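import Pool.Agent.H24.SCG3.EW4

/-! Project SCG3, row EW3. -/

namespace Pool.SCG

open Matrix

theorem ew3_thm (hINV : EINVStmt) (hC1 : EC1Stmt) (hC2 : EC2Stmt) : EW3Stmt := by
  intro F _ _ hF a b c e ia ib ic ie as cs es ac ae ce be
  have h2 := hF.1
  obtain ⟨u, φ, ha⟩ := inner_cases hINV h2 ia as
  obtain ⟨v, ψ, he⟩ := inner_cases hINV h2 ie es
  obtain ⟨S, hc⟩ := outer_cases hINV h2 ic cs
  obtain ⟨hφv, hψu⟩ := (hC1 F a e u φ v ψ ha he).1 ae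
  obtain ⟨κ, hκ, hκ'⟩ := (hC2 F h2 a c u φ S ha hc).1 ac
  obtain ⟨k, hk, hk'⟩ := (hC2 F h2 e c v ψ S he hc).1 ce.symm
  have hinv : ∀ x : Fin 3 → F, adjugate S *ᵥ (S *ᵥ x) = x := by
    intro x
    rw [mulVec_mulVec, adj_mul_self hc.is.det, one_mulVec]
  have hpar : ∃ t : F, v = t • u := by
    by_contra hno
    apply hno
    obtain ⟨s, hs⟩ := par_of_kill (φ := u) (ψ := v) (u := φ) (v := ψ) ha.p0
      (by rw [dotProduct_comm]; exact ha.pu) (by rw [dotProduct_comm]; exact hφv)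
      (by rw [dotProduct_comm]; exact hψu) (by rw [dotProduct_comm]; exact he.pu) ha.u0 hno
    refine ⟨k * s * κ⁻¹, ?_⟩
    have h1 : S *ᵥ v = S *ᵥ ((k * s * κ⁻¹) • u) := by
      rw [mulVec_smul, hκ', hk', hs, smul_smul, smul_smul, mul_assoc, mul_assoc,
        inv_mul_cancel₀ hκ, mul_one]
    rw [← hinv v, h1, hinv]
  obtain ⟨t, ht⟩ := hpar
  have ht0 : t ≠ 0 := by
    rintro rfl
    rw [zero_smul] at ht
    exact he.u0 ht
  obtain ⟨s, hs0, hs⟩ : ∃ s : F, s ≠ 0 ∧ ψ = s • φ := by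
    refine ⟨k⁻¹ * (t * κ), mul_ne_zero (inv_ne_zero hk) (mul_ne_zero ht0 hκ), ?_⟩
    rw [ht, mulVec_smul, hκ', smul_smul] at hk'
    rw [mul_smul, hk', smul_smul, inv_mul_cancel₀ hk, one_smul]
  rcases hINV F h2 b ib with ⟨w, χ, hb⟩ | ⟨B, hb⟩
  · obtain ⟨h1, h3⟩ := (hC1 F b e w χ v ψ hb he).1 be
    rw [hC1 F a b u φ w χ ha hb]
    rw [ht, dotProduct_smul, smul_eq_mul] at h1
    rw [hs, smul_dotProduct, smul_eq_mul] at h3
    exact ⟨(mul_eq_zero.1 h3).resolve_left hs0, (mul_eq_zero.1 h1).resolve_left ht0⟩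
  · obtain ⟨m, hm, hm'⟩ := (hC2 F h2 e b v ψ B he hb).1 be.symm
    rw [hC2 F h2 a b u φ B ha hb]
    refine ⟨t⁻¹ * (m * s), mul_ne_zero (inv_ne_zero ht0) (mul_ne_zero hm hs0), ?_⟩
    rw [ht, mulVec_smul, hs, smul_smul] at hm'
    rw [mul_smul, ← hm', smul_smul, inv_mul_cancel₀ ht0, one_smul]

end Pool.SCG
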