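import Pool.Agent.H24.SCG3.Lin

/-! Project SCG3, row EW4. -/

namespace Pool.SCG

open Matrix

section

variable {F : Type} [Field F]

/-- the vectors killed by two independent functionals are proportional -/
theorem par_of_kill {φ ψ u v : Fin 3 → F} (hu : u ≠ 0) (h1 : φ ⬝ᵥ u = 0) (h2 : ψ ⬝ᵥ u = 0)
    (h3 : φ ⬝ᵥ v = 0) (h4 : ψ ⬝ᵥ v = 0) (hφ : φ ≠ 0) (hnp : ¬ ∃ c : F, ψ = c • φ) :
    ∃ c : F, v = c • u := by
  -- choose `w` with `φ w = 1`-like independence through the determinant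
  by_contra hno
  apply hnp
  -- pick a vector outside of the span of `u`, `v`
  have hcr : crossProduct u v ≠ 0 := by
    intro h0
    apply hno
    rw [cross_apply] at h0
    have e0 := congrFun h0 0
    have e1 := congrFun h0 1
    have e2 := congrFun h0 2
    simp at e0 e1 e2
    obtain ⟨k, hk⟩ : ∃ k, u k ≠ 0 := by
      by_contra h
      push Not at h
      exact hu (funext h)
    fin_cases k
    · simp at hk
      refine ⟨v 0 / u 0, ?_⟩
      funext i
      fin_cases i <;> simp <;> field_simp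
      · linear_combination e2
      · linear_combination -e1
    · simp at hk
      refine ⟨v 1 / u 1, ?_⟩
      funext i
      fin_cases i <;> simp <;> field_simp
      · linear_combination -e2
      · linear_combination e0
    · simp at hk
      refine ⟨v 2 / u 2, ?_⟩
      funext i
      fin_cases i <;> simp <;> field_simp
      · linear_combination e1
      · linear_combination -e0
  -- `φ` and `ψ` are multiples of the cross product
  have key : ∀ χ : Fin 3 → F, χ ⬝ᵥ u = 0 → χ ⬝ᵥ v = 0 → ∃ c : F, χ = c • crossProduct u v := by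
    intro χ hu' hv'
    rw [dot3'] at hu' hv'
    obtain ⟨k, hk⟩ : ∃ k, crossProduct u v k ≠ 0 := by
      by_contra h
      push Not at h
      exact hcr (funext h)
    rw [cross_apply] at hk ⊢
    fin_cases k
    · simp at hk
      refine ⟨χ 0 / (u 1 * v 2 - u 2 * v 1), ?_⟩
      funext i
      fin_cases i <;> simp <;> field_simp
      · linear_combination (v 2) * hu' - (u 2) * hv'
      · linear_combination (-(v 1)) * hu' + (u 1) * hv'
    · simp at hk
      refine ⟨χ 1 / (u 2 * v 0 - u 0 * v 2), ?_⟩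
      funext i
      fin_cases i <;> simp <;> field_simp
      · linear_combination (-(v 2)) * hu' + (u 2) * hv'
      · linear_combination (v 0) * hu' - (u 0) * hv'
    · simp at hk
      refine ⟨χ 2 / (u 0 * v 1 - u 1 * v 0), ?_⟩
      funext i
      fin_cases i <;> simp <;> field_simp
      · linear_combination (v 1) * hu' - (u 1) * hv'
      · linear_combination (-(v 0)) * hu' + (u 0) * hv'
  obtain ⟨c, hc⟩ := key φ h1 h3
  obtain ⟨d, hd⟩ := key ψ h2 h4
  have hc0 : c ≠ 0 := by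
    rintro rfl
    rw [zero_smul] at hc
    exact hφ hc
  exact ⟨d * c⁻¹, by rw [hc, hd, smul_smul, mul_assoc, inv_mul_cancel₀ hc0, mul_one]⟩

end

theorem ew4_thm (hINV : EINVStmt) (hC1 : EC1Stmt) (hC2 : EC2Stmt) (hC3 : EC3Stmt)
    (hAR : EARStmt) : EW4Stmt := by
  intro F _ _ hF a b d e ia ib id ie as bs ds es ad ae bd be
  have h2 := hF.1
  obtain ⟨hsq, -⟩ := hAR F hF
  obtain ⟨u, φ, ha⟩ := inner_cases hINV h2 ia as
  obtain ⟨v, ψ, he⟩ := inner_cases hINV h2 ie es
  obtain ⟨B, hb⟩ := outer_cases hINV h2 ib bs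
  obtain ⟨D, hd⟩ := outer_cases hINV h2 id ds
  obtain ⟨hφv, hψu⟩ := (hC1 F a e u φ v ψ ha he).1 ae
  obtain ⟨c, hc, hc'⟩ := (hC2 F h2 a d u φ D ha hd).1 ad
  obtain ⟨k, hk, hk'⟩ := (hC2 F h2 e b v ψ B he hb).1 be.symm
  obtain ⟨χ, hχ, hχ0⟩ := (hC3 F h2 hsq b d B D hb hd).1 bd
  have hDu : D *ᵥ u = B *ᵥ u + (χ ⬝ᵥ u) • χ := by
    rw [hχ, add_mulVec, vecMulVec_mulVec]
    congr 1
    ext i
    simp [mul_comm]
  rw [hc'] at hDu
  rw [hC2 F h2 a b u φ B ha hb]
  by_cases hp : ∃ t : F, ψ = t • φ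
  · obtain ⟨t, ht⟩ := hp
    have ht0 : t ≠ 0 := by
      rintro rfl
      rw [zero_smul] at ht
      exact he.p0 ht
    by_cases hq : ∃ l : F, v = l • u
    · obtain ⟨l, hl⟩ := hq
      have hl0 : l ≠ 0 := by
        rintro rfl
        rw [zero_smul] at hl
        exact he.u0 hl
      refine ⟨l⁻¹ * (k * t), mul_ne_zero (inv_ne_zero hl0) (mul_ne_zero hk ht0), ?_⟩
      rw [hl, mulVec_smul, ht, smul_smul] at hk'
      rw [mul_smul, ← hk', smul_smul, inv_mul_cancel₀ hl0, one_smul]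
    · exfalso
      -- `B (u - μ v) = (χ u) χ`
      have hkt : k * t ≠ 0 := mul_ne_zero hk ht0
      have hBv : B *ᵥ v = (k * t) • φ := by rw [hk', ht, smul_smul]
      have hB : B *ᵥ (u - (c * (k * t)⁻¹) • v) = -((χ ⬝ᵥ u) • χ) := by
        rw [mulVec_sub, mulVec_smul, hBv, smul_smul, mul_assoc, inv_mul_cancel₀ hkt, mul_one]
        have : B *ᵥ u = c • φ - (χ ⬝ᵥ u) • χ := by rw [hDu]; abel
        rw [this]
        abel
      have hinv : ∀ x : Fin 3 → F, adjugate B *ᵥ (B *ᵥ x) = x := by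
        intro x
        rw [mulVec_mulVec, adj_mul_self hb.is.det, one_mulVec]
      have hχu : χ ⬝ᵥ u ≠ 0 := by
        intro h0
        rw [h0, zero_smul, neg_zero] at hB
        have h1 := hinv (u - (c * (k * t)⁻¹) • v)
        rw [hB, mulVec_zero] at h1
        have h3 : u = (c * (k * t)⁻¹) • v := sub_eq_zero.1 h1.symm
        apply hq
        refine ⟨(c * (k * t)⁻¹)⁻¹, ?_⟩
        have hne : c * (k * t)⁻¹ ≠ 0 := mul_ne_zero hc (inv_ne_zero hkt)
        conv_rhs => rw [h3]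
        rw [smul_smul, inv_mul_cancel₀ hne, one_smul]
      have hvBu : (B *ᵥ u) ⬝ᵥ v = 0 := by
        rw [form_symm hb.sym, hBv, smul_dotProduct, ha.pu, smul_zero]
      have hvBv : (B *ᵥ v) ⬝ᵥ v = 0 := by
        rw [hk', smul_dotProduct, he.pu, smul_zero]
      have hχv : χ ⬝ᵥ v = 0 := by
        have h1 : (B *ᵥ (u - (c * (k * t)⁻¹) • v)) ⬝ᵥ v = 0 := by
          rw [mulVec_sub, mulVec_smul, sub_dotProduct, smul_dotProduct, hvBu, hvBv, smul_zero,
            sub_zero]
        rw [hB, neg_dotProduct, smul_dotProduct, smul_eq_mul, neg_eq_zero] at h1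
        exact (mul_eq_zero.1 h1).resolve_left hχu
      have h1 := hinv (u - (c * (k * t)⁻¹) • v)
      rw [hB, mulVec_neg, mulVec_smul] at h1
      have h3 : χ ⬝ᵥ (u - (c * (k * t)⁻¹) • v) = 0 := by
        rw [← h1, dotProduct_neg, dotProduct_smul, hχ0, smul_zero, neg_zero]
      rw [dotProduct_sub, dotProduct_smul, hχv, smul_zero, sub_zero] at h3
      exact hχu h3
  · exfalso
    obtain ⟨l, hl⟩ := par_of_kill ha.u0 ha.pu hψu hφv he.pu ha.p0 hp
    have hl0 : l ≠ 0 := by
      rintro rfl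
      rw [zero_smul] at hl
      exact he.u0 hl
    have hBu : B *ᵥ u = (l⁻¹ * k) • ψ := by
      rw [hl, mulVec_smul] at hk'
      rw [mul_smul, ← hk', smul_smul, inv_mul_cancel₀ hl0, one_smul]
    rw [hBu] at hDu
    have h1 : χ ⬝ᵥ u = 0 := by
      have h3 : (c • φ) ⬝ᵥ u = ((l⁻¹ * k) • ψ + (χ ⬝ᵥ u) • χ) ⬝ᵥ u := by rw [hDu]
      rw [smul_dotProduct, add_dotProduct, smul_dotProduct, smul_dotProduct, ha.pu, hψu] at h3
      simpa using h3
    rw [h1, zero_smul, add_zero] at hDu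
    apply hp
    have hlk : l⁻¹ * k ≠ 0 := mul_ne_zero (inv_ne_zero hl0) hk
    refine ⟨(l⁻¹ * k)⁻¹ * c, ?_⟩
    rw [mul_smul, hDu, smul_smul, inv_mul_cancel₀ hlk, one_smul]

end Pool.SCG
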