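import Pool.Agent.H24.SCG3.Lin

/-! Project SCG3, row EW5. -/

namespace Pool.SCG

open Matrix

theorem ew5_false (hINV : EINVStmt) (hC1 : EC1Stmt) (hC2 : EC2Stmt) (F : Type) [Field F]
    (h2 : (2 : F) = 0) (a b d e : Cor F) (ia : Iv a) (ib : Iv b) (id : Iv d) (ie : Iv e)
    (as : a.s = false) (bs : b.s = true) (ds : d.s = false) (es : e.s = false)
    (ad : a * d = d * a) (ae : a * e = e * a) (bd : b * d = d * b) (be : b * e = e * b)
    (de : d * e ≠ e * d) : False := by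
  obtain ⟨w, χ, ha⟩ := inner_cases hINV h2 ia as
  obtain ⟨u, φ, hd⟩ := inner_cases hINV h2 id ds
  obtain ⟨v, ψ, he⟩ := inner_cases hINV h2 ie es
  obtain ⟨B, hb⟩ := outer_cases hINV h2 ib bs
  obtain ⟨h1, h3⟩ := (hC1 F a d w χ u φ ha hd).1 ad
  obtain ⟨h4, h5⟩ := (hC1 F a e w χ v ψ ha he).1 ae
  obtain ⟨c, hc, hc'⟩ := (hC2 F h2 d b u φ B hd hb).1 bd.symm
  obtain ⟨k, hk, hk'⟩ := (hC2 F h2 e b v ψ B he hb).1 be.symm
  have hsym := form_symm hb.sym u v
  rw [hc', hk', smul_dotProduct, smul_dotProduct, smul_eq_mul, smul_eq_mul] at hsym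
  have hφv : φ ⬝ᵥ v ≠ 0 := by
    intro h0
    apply de
    rw [hC1 F d e u φ v ψ hd he]
    refine ⟨h0, ?_⟩
    rw [h0, mul_zero] at hsym
    exact (mul_eq_zero.1 hsym.symm).resolve_left hk
  have hψu : ψ ⬝ᵥ u ≠ 0 := by
    intro h0
    apply de
    rw [hC1 F d e u φ v ψ hd he]
    refine ⟨?_, h0⟩
    rw [h0, mul_zero] at hsym
    exact (mul_eq_zero.1 hsym).resolve_left hc
  have hdet : (Matrix.of ![u, v, w]).det ≠ 0 := by
    intro h0
    obtain ⟨α, β, γ, hne, hcomb⟩ := dep3 h0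
    have e1 := dot_comb hcomb φ
    have e2 := dot_comb hcomb ψ
    rw [hd.pu, h3] at e1
    rw [he.pu, h5] at e2
    have hβ : β = 0 := by
      have : β * (φ ⬝ᵥ v) = 0 := by linear_combination e1
      exact (mul_eq_zero.1 this).resolve_right hφv
    have hα : α = 0 := by
      have : α * (ψ ⬝ᵥ u) = 0 := by linear_combination e2
      exact (mul_eq_zero.1 this).resolve_right hψu
    rw [hα, hβ, zero_smul, zero_smul, zero_add, zero_add] at hcomb
    rcases hne with h | h | h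
    · exact h hα
    · exact h hβ
    · exact ha.u0 ((smul_eq_zero.1 hcomb).resolve_left h)
  exact ha.p0 (kill3 hdet h1 h4 ha.pu)

theorem ew5_thm (hINV : EINVStmt) (hC1 : EC1Stmt) (hC2 : EC2Stmt) : EW5Stmt := by
  intro F _ _ hF a b d e ia ib id ie as bs ds es ad ae bd be de
  exact (ew5_false hINV hC1 hC2 F hF.1 a b d e ia ib id ie as bs ds es ad ae bd be de).elim

end Pool.SCG
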