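import Pool.Agent.H24.SCG3.Stmts6

/-! Project SCG3, row EW6: a string of rank five has no polarities. -/

namespace Pool.SCG

theorem ew6_aux (hMIX : EMIXStmt) (hW1 : EW1Stmt) (hW2 : EW2Stmt) (F : Type) [Field F] [Finite F]
    (hF : EvN F) (a b c d e : Cor F) (h : Str5w a b c d e) : a.s = false := by
  by_contra hs
  have has : a.s = true := by
    cases h' : a.s
    · exact absurd h' hs
    · rfl
  have hcd : c.s = d.s := by
    by_contra hne
    have h1 := hMIX F hF a c d h.ia h.ic h.id has hne h.ac h.ad h.cd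
    refine h.v2 (Subgroup.closure_mono ?_ h1)
    rintro x (rfl | rfl) <;> simp
  have hde : d.s = e.s := by
    by_contra hne
    have h1 := hMIX F hF a d e h.ia h.id h.ie has hne h.ad h.ae h.de
    refine h.v2 (Subgroup.closure_mono ?_ h1)
    rintro x (rfl | rfl) <;> simp
  cases hc : c.s with
  | false =>
    have hd : d.s = false := by rw [← hcd, hc]
    have he : e.s = false := by rw [← hde, hd]
    exact h.bc (hW1 F hF a b c d e h.ia h.ib h.ic h.id h.ie has hc hd he h.ac h.ad h.ae h.bd
      h.be h.de)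
  | true =>
    have hd : d.s = true := by rw [← hcd, hc]
    have he : e.s = true := by rw [← hde, hd]
    have hb : b.s = true := by
      by_contra hne
      have h1 := hMIX F hF e b c h.ie h.ib h.ic he (by rw [hc]; exact hne) h.be.symm h.ce.symm
        h.bc
      refine h.v1 (Subgroup.closure_mono ?_ h1)
      rintro x (rfl | rfl) <;> simp
    exact h.ab (hW2 F hF a b d e h.ia h.ib h.id h.ie has hb hd he h.ad h.ae h.bd h.be h.de)

theorem ew6_thm (hREV : REVwStmt) (hMIX : EMIXStmt) (hW1 : EW1Stmt) (hW2 : EW2Stmt)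
    (hW3 : EW3Stmt) (hW4 : EW4Stmt) (hW5 : EW5Stmt) : EW6Stmt := by
  intro F _ _ hF a b c d e h
  have h' := hREV F a b c d e h
  have ha := ew6_aux hMIX hW1 hW2 F hF a b c d e h
  have he := ew6_aux hMIX hW1 hW2 F hF e d c b a h'
  have hc : c.s = false := by
    cases hc : c.s
    · rfl
    · exact absurd (hW3 F hF a b c e h.ia h.ib h.ic h.ie ha hc he h.ac h.ae h.ce h.be) h.ab
  cases hb : b.s with
  | true =>
    cases hd : d.s with
    | true =>
      exact absurd (hW4 F hF a b d e h.ia h.ib h.id h.ie ha hb hd he h.ad h.ae h.bd h.be) h.ab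
    | false =>
      exact absurd (hW5 F hF a b d e h.ia h.ib h.id h.ie ha hb hd he h.ad h.ae h.bd h.be h.de)
        h.ab
  | false =>
    cases hd : d.s with
    | true =>
      exact absurd (hW5 F hF e d b a h'.ia h'.ib h'.id h'.ie he hd hb ha h'.ad h'.ae h'.bd h'.be
        h'.de) h'.ab
    | false => exact ⟨ha, rfl, hc, rfl, he⟩

end Pool.SCG
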