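import Pool.Agent.H24.SCG3.Stmts6

/-! Project SCG3, row EYE: existence in rank four. -/

namespace Pool.SCG

theorem range_four' {G : Type} [Group G] (a b c d : G) :
    Set.range ![a, b, c, d] = ({a, b, c, d} : Set G) := by
  ext x
  simp only [Set.mem_range, Set.mem_insert_iff, Set.mem_singleton_iff]
  constructor
  · rintro ⟨i, rfl⟩
    fin_cases i <;> simp
  · rintro (rfl | rfl | rfl | rfl)
    · exact ⟨0, rfl⟩
    · exact ⟨1, rfl⟩
    · exact ⟨2, rfl⟩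
    · exact ⟨3, rfl⟩

theorem eye_thm (hST4B : ST4BStmt) (hYR : EYRStmt) (hYS : EYSStmt) (hYI : EYIStmt)
    (hYG : EYGStmt) (hAR : EARStmt) (hTRN : TRNStmt) (hIOT : EIOTStmt) : EYEStmt := by
  intro F _ _ hF hcard
  obtain ⟨-, -, hcube, hβ⟩ := hAR F hF
  obtain ⟨β, h0, h3, hgen⟩ := hβ hcard
  obtain ⟨hinj, hran, -⟩ := hIOT F hcube
  obtain ⟨a, b, c, d, hG, a1, b1, c1, d1, aa, bb, cc, dd, ac, ad, bd, ab, bc, cd⟩ :=
    hYR F β hF.1 h0 h3
  obtain ⟨s1, s2⟩ := hYS F β hF.1 h0 h3 a b c d hG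
  have hstr : IsStringC 4 ![a, b, c, d] :=
    hST4B (Cor F) a b c d a1 b1 c1 d1 aa bb cc dd ac ad bd ab bc cd s1 s2
      (hYI F β hF.1 h0 h3 hcube hgen a b c d hG)
  have htop : HasStringC (⊤ : Subgroup (Cor F)) 4 := by
    refine ⟨![a, b, c, d], hstr, ?_⟩
    rw [range_four']
    exact hYG F β hF.1 h0 h3 hgen a b c d hG
  have := (hTRN (Cor F) (MulAut (SL3 F)) (iota F) hinj ⊤ 4).2 htop
  rwa [← MonoidHom.range_eq_map, hran] at this

end Pool.SCG
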