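import Pool.Agent.H24.SCG3.EYP

/-! Project SCG3, row EYI: third intersection condition. -/

namespace Pool.SCG

open Matrix

section

variable {F : Type} [Field F]

/-- the stabiliser of the pair `p`, `q` (a point and a line) -/
def St (p q : Fin 3 → F) (x : Cor F) : Prop :=
  (x.s = false → (∃ c : F, (x.m : M3 F) *ᵥ p = c • p) ∧ ∃ c : F, q ᵥ* (x.m : M3 F) = c • q) ∧
  (x.s = true → (∃ c : F, (x.m : M3 F) *ᵥ p = c • q) ∧ ∃ c : F, p ᵥ* (x.m : M3 F) = c • q)

theorem inv_vec {X : M3 F} (h : X.det = 1) {p q : Fin 3 → F} (hp : p ≠ 0)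
    (hx : ∃ c : F, X *ᵥ p = c • q) : ∃ c : F, adjugate X *ᵥ q = c • p := by
  obtain ⟨c, hc⟩ := hx
  have h1 : adjugate X *ᵥ (X *ᵥ p) = p := by
    rw [mulVec_mulVec, adj_mul_self h, one_mulVec]
  have hc0 : c ≠ 0 := by
    rintro rfl
    rw [hc, zero_smul, mulVec_zero] at h1
    exact hp h1.symm
  refine ⟨c⁻¹, ?_⟩
  rw [← h1, hc, mulVec_smul, smul_smul, inv_mul_cancel₀ hc0, one_smul]

theorem inv_vec' {X : M3 F} (h : X.det = 1) {p q : Fin 3 → F} (hp : p ≠ 0)
    (hx : ∃ c : F, p ᵥ* X = c • q) : ∃ c : F, q ᵥ* adjugate X = c • p := by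
  obtain ⟨c, hc⟩ := hx
  have h1 : (p ᵥ* X) ᵥ* adjugate X = p := by
    rw [vecMul_vecMul, mul_adj_self h, vecMul_one]
  have hc0 : c ≠ 0 := by
    rintro rfl
    rw [hc, zero_smul, zero_vecMul] at h1
    exact hp h1.symm
  refine ⟨c⁻¹, ?_⟩
  rw [← h1, hc, smul_vecMul, smul_smul, inv_mul_cancel₀ hc0, one_smul]

theorem St.one (p q : Fin 3 → F) : St p q 1 := by
  refine ⟨fun _ => ⟨⟨1, ?_⟩, ⟨1, ?_⟩⟩, fun h => absurd h (by simp)⟩
  · simp
  · simp

theorem mv_comp {X Y : M3 F} {p q r : Fin 3 → F} (hX : ∃ c : F, X *ᵥ q = c • r)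
    (hY : ∃ c : F, Y *ᵥ p = c • q) : ∃ c : F, (X * Y) *ᵥ p = c • r := by
  obtain ⟨c, hc⟩ := hX
  obtain ⟨e, he⟩ := hY
  exact ⟨e * c, by rw [← mulVec_mulVec, he, mulVec_smul, hc, smul_smul]⟩

theorem vm_comp {X Y : M3 F} {p q r : Fin 3 → F} (hX : ∃ c : F, p ᵥ* X = c • q)
    (hY : ∃ c : F, q ᵥ* Y = c • r) : ∃ c : F, p ᵥ* (X * Y) = c • r := by
  obtain ⟨c, hc⟩ := hX
  obtain ⟨e, he⟩ := hY
  exact ⟨c * e, by rw [← vecMul_vecMul, hc, smul_vecMul, he, smul_smul]⟩

theorem St.mul {p q : Fin 3 → F} (hp : p ≠ 0) (hq : q ≠ 0) {x y : Cor F} (hx : St p q x)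
    (hy : St p q y) : St p q (x * y) := by
  have hX : (x.m : M3 F).det = 1 := x.m.2
  rcases hys : y.s with _ | _
  · have hm : ((x * y).m : M3 F) = (x.m : M3 F) * (y.m : M3 F) := by
      rw [Cor.mul_m, hys]
      rfl
    have hs : (x * y).s = x.s := by rw [Cor.mul_s, hys, Bool.xor_false]
    obtain ⟨y1, y2⟩ := hy.1 hys
    refine ⟨fun h => ?_, fun h => ?_⟩
    · obtain ⟨x1, x2⟩ := hx.1 (hs ▸ h)
      rw [hm]
      exact ⟨mv_comp x1 y1, vm_comp x2 y2⟩
    · obtain ⟨x1, x2⟩ := hx.2 (hs ▸ h)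
      rw [hm]
      exact ⟨mv_comp x1 y1, vm_comp x2 y2⟩
  · have hm : ((x * y).m : M3 F) = (adjugate (x.m : M3 F)).transpose * (y.m : M3 F) := by
      rw [Cor.mul_m, hys]
      show ((it x.m : SL3 F) : M3 F) * _ = _
      rw [coe_it]
    have hs : (x * y).s = !x.s := by rw [Cor.mul_s, hys, Bool.xor_true]
    obtain ⟨y1, y2⟩ := hy.2 hys
    refine ⟨fun h => ?_, fun h => ?_⟩
    · have hxs : x.s = true := by
        rw [hs] at h
        cases hx' : x.s
        · rw [hx'] at h
          exact absurd h (by decide)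
        · rfl
      obtain ⟨x1, x2⟩ := hx.2 hxs
      have i1 := inv_vec hX hp x1
      have i2 := inv_vec' hX hp x2
      rw [hm]
      refine ⟨mv_comp ?_ y1, vm_comp ?_ y2⟩
      · rw [mulVec_transpose]
        exact i2
      · rw [vecMul_transpose]
        exact i1
    · have hxs : x.s = false := by
        rw [hs] at h
        cases hx' : x.s
        · rfl
        · rw [hx'] at h
          exact absurd h (by decide)
      obtain ⟨x1, x2⟩ := hx.1 hxs
      have i1 := inv_vec hX hp x1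
      have i2 := inv_vec' hX hq x2
      rw [hm]
      refine ⟨mv_comp ?_ y1, vm_comp ?_ y2⟩
      · rw [mulVec_transpose]
        exact i2
      · rw [vecMul_transpose]
        exact i1

theorem St.inv {p q : Fin 3 → F} (hp : p ≠ 0) (hq : q ≠ 0) {x : Cor F} (hx : St p q x) :
    St p q x⁻¹ := by
  have hX : (x.m : M3 F).det = 1 := x.m.2
  refine ⟨fun h => ?_, fun h => ?_⟩
  · rw [Cor.inv_s] at h
    obtain ⟨x1, x2⟩ := hx.1 h
    have hm : ((x⁻¹).m : M3 F) = adjugate (x.m : M3 F) := by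
      rw [Cor.inv_m, h]
      simp [tw]
    rw [hm]
    exact ⟨inv_vec hX hp x1, inv_vec' hX hq x2⟩
  · rw [Cor.inv_s] at h
    obtain ⟨x1, x2⟩ := hx.2 h
    have hm : ((x⁻¹).m : M3 F) = (x.m : M3 F).transpose := by
      rw [Cor.inv_m, h]
      have : (tw true x.m)⁻¹ = x.m.transpose := by
        simp [tw, it, tr_inv]
      rw [this, Matrix.SpecialLinearGroup.coe_transpose]
    rw [hm, mulVec_transpose, vecMul_transpose]
    exact ⟨x2, x1⟩

theorem St.closure {p q : Fin 3 → F} (hp : p ≠ 0) (hq : q ≠ 0) {T : Set (Cor F)}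
    (hT : ∀ x ∈ T, St p q x) : ∀ x ∈ Subgroup.closure T, St p q x := by
  intro x hx
  induction hx using Subgroup.closure_induction with
  | mem x hx => exact hT x hx
  | one => exact St.one p q
  | mul x y _ _ hx hy => exact St.mul hp hq hx hy
  | inv x _ hx => exact St.inv hp hq hx

theorem St.of_sym {p q : Fin 3 → F} {x : Cor F} {A : M3 F} (hx : Is x true A)
    (hA : A.transpose = A) (h : ∃ c : F, A *ᵥ p = c • q) : St p q x := by
  refine ⟨fun h' => absurd (h'.symm.trans hx.1) (by simp), fun _ => ?_⟩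
  rw [hx.2]
  refine ⟨h, ?_⟩
  rw [← mulVec_transpose, hA]
  exact h

end

theorem eyi_thm : EYIStmt := by
  intro F _ β h2 h0 h3 _ hgen a b c d h
  have hs := s_ne h3
  have hb1 : 1 + β ≠ 0 := by
    intro h1
    apply h3
    linear_combination (β ^ 2 - β + 1) * h1 - h2
  have e0 : β * β⁻¹ = 1 := mul_inv_cancel₀ h0
  -- the two stabilisers
  have hA : ∀ x ∈ Subgroup.closure ({a, b, c} : Set (Cor F)), St ![0, 1, 0] ![0, 1, 0] x := by
    apply St.closure
    · intro h; simpa using congrFun h 1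
    · intro h; simpa using congrFun h 1
    · rintro x (rfl | rfl | rfl)
      · refine St.of_sym h.ha ?_ ⟨1, ?_⟩
        · ext i j; fin_cases i <;> fin_cases j <;> simp [dg]
        · ext i; fin_cases i <;> simp [dg]
      · refine St.of_sym h.hb ?_ ⟨β⁻¹, ?_⟩
        · ext i j; fin_cases i <;> fin_cases j <;> simp [dg]
        · ext i; fin_cases i <;> simp [dg]
      · refine St.of_sym h.hc ?_ ⟨1, ?_⟩
        · ext i j; fin_cases i <;> fin_cases j <;> simp
        · ext i; fin_cases i <;> simp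
  have hD : ∀ x ∈ Subgroup.closure ({b, c, d} : Set (Cor F)),
      St ![1, β, 1 + β] ![β, 1, 1 + β] x := by
    apply St.closure
    · intro h; simpa using congrFun h 0
    · intro h; simpa using congrFun h 1
    · rintro x (rfl | rfl | rfl)
      · refine St.of_sym h.hb ?_ ⟨1, ?_⟩
        · ext i j; fin_cases i <;> fin_cases j <;> simp [dg]
        · ext i; fin_cases i <;> simp [dg, h0]
      · refine St.of_sym h.hc ?_ ⟨β, ?_⟩
        · ext i j; fin_cases i <;> fin_cases j <;> simp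
        · ext i
          fin_cases i <;> simp [Matrix.mulVec, dotProduct, Fin.sum_univ_three]
          · linear_combination e0 + (β + β⁻¹ + 1) * h2
          · linear_combination e0 + (β + β⁻¹ + 1) * h2
      · refine St.of_sym h.hd ?_ ⟨1, ?_⟩
        · ext i j; fin_cases i <;> fin_cases j <;> simp
        · ext i
          fin_cases i <;> simp [Matrix.mulVec, dotProduct, Fin.sum_univ_three]
  have hbb : b * b = 1 := by
    have h1 : dg β β⁻¹ 1 * dg β⁻¹ β 1 = 1 := by
      ext i j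
      fin_cases i <;> fin_cases j <;> simp [dg, Matrix.mul_apply, Fin.sum_univ_three, h0]
    have h4 := h.hb.mul_outer' h.hb h1
    have h5 : (dg β⁻¹ β 1).transpose * dg β β⁻¹ 1 = 1 := by
      ext i j
      fin_cases i <;> fin_cases j <;> simp [dg, Matrix.mul_apply, Fin.sum_univ_three, h0]
    rw [h5] at h4
    exact h4.ext is_one
  have hb : b ∈ Subgroup.closure ({b, c} : Set (Cor F)) :=
    Subgroup.subset_closure (Set.mem_insert _ _)
  have hc : c ∈ Subgroup.closure ({b, c} : Set (Cor F)) :=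
    Subgroup.subset_closure (Set.mem_insert_of_mem _ rfl)
  -- inner elements
  have hinner : ∀ x : Cor F, x.s = false → x ∈ Subgroup.closure ({a, b, c} : Set (Cor F)) →
      x ∈ Subgroup.closure ({b, c, d} : Set (Cor F)) →
      x ∈ Subgroup.closure ({b, c} : Set (Cor F)) := by
    intro x hxs hx1 hx2
    obtain ⟨⟨l1, hl1⟩, ⟨l2, hl2⟩⟩ := (hA x hx1).1 hxs
    obtain ⟨⟨l3, hl3⟩, ⟨l4, hl4⟩⟩ := (hD x hx2).1 hxs
    set X : M3 F := (x.m : M3 F) with hX
    have hdet : X.det = 1 := x.m.2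
    have a0 := congrFun hl1 0
    have a1 := congrFun hl1 1
    have a2 := congrFun hl1 2
    have b0 := congrFun hl2 0
    have b1 := congrFun hl2 1
    have b2 := congrFun hl2 2
    have c0 := congrFun hl3 0
    have c1 := congrFun hl3 1
    have c2 := congrFun hl3 2
    have d0 := congrFun hl4 0
    have d1 := congrFun hl4 1
    have d2 := congrFun hl4 2
    simp [Matrix.mulVec, Matrix.vecMul, dotProduct, Fin.sum_univ_three] at a0 a1 a2 b0 b1 b2
    simp [Matrix.mulVec, Matrix.vecMul, dotProduct, Fin.sum_univ_three, a0, a1, a2, b0, b2]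
      at c0 c1 c2 d0 d1 d2
    have c1' : l1 = l3 := c1.resolve_right h0
    rw [← c1'] at c0 c2
    rw [← d1] at d0 d2
    have hd3 := hdet
    rw [Matrix.det_fin_three, a0, a1, a2, b0, b2] at hd3
    -- the entries
    have x00 : X 0 0 = l1 + X 0 2 * (1 + β) := by
      linear_combination c0 - (X 0 2 * (1 + β)) * h2
    have x20 : X 2 0 = β * X 0 2 := by
      have : (1 + β) * (X 2 0 - β * X 0 2) = 0 := by
        linear_combination d0 - β * c0
      exact sub_eq_zero.1 ((mul_eq_zero.1 this).resolve_left hb1)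
    have x22 : (1 + β) * X 2 2 = (1 + β) * l1 + β * X 0 2 := by
      linear_combination c2 - x20 - (β * X 0 2) * h2
    have hl0 : l1 ≠ 0 := by
      rintro h0'
      rw [h0'] at hd3
      simp at hd3
    set y := X 0 2 * (l1 * (1 + β))⁻¹ with hy
    have hlb : l1 * (1 + β) ≠ 0 := mul_ne_zero hl0 hb1
    have x02 : X 0 2 = l1 * (1 + β) * y := by
      rw [hy]
      field_simp
    set t := 1 + y * (1 + β + β ^ 2) with ht
    have hty : (t - 1) * (1 + β + β ^ 2)⁻¹ = y := by
      rw [ht]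
      field_simp
      ring
    have x22' : X 2 2 = l1 * (1 + y * β) := by
      have : (1 + β) * (X 2 2 - l1 * (1 + y * β)) = 0 := by
        rw [x02] at x22
        linear_combination x22
      exact sub_eq_zero.1 ((mul_eq_zero.1 this).resolve_left hb1)
    have hXH : X = Hm β t l1 := by
      rw [Hm_entries, hty]
      ext i j
      fin_cases i <;> fin_cases j <;> simp [a0, a1, a2, b0, b2, -mul_eq_mul_left_iff]
      · rw [x00, x02]; ring
      · rw [x02]; ring
      · rw [x20, x02]; ring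
      · rw [x22']
    have hlt : l1 ^ 3 * t = 1 := by
      rw [x00, x20, x22', x02] at hd3
      rw [ht]
      linear_combination hd3 - (l1 ^ 3 * y * β) * h2
    obtain ⟨n, hn⟩ := hgen l1 hl0
    have hbn : β ^ (3 * n) = l1 := by rw [pow_mul, hn]
    have h6 := bc_pow h2 h0 h3 h (3 * n)
    have ht2 : β⁻¹ ^ (3 * (3 * n)) = t := by
      rw [mul_comm 3 (3 * n), pow_mul, inv_pow, hbn, inv_pow]
      exact (eq_inv_of_mul_eq_one_right hlt).symm
    rw [hbn, ht2, ← hXH] at h6
    have h7 : x = (b * c) ^ (3 * n) := Is.ext ⟨hxs, rfl⟩ h6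
    rw [h7]
    exact Subgroup.pow_mem _ (Subgroup.mul_mem _ hb hc) _
  intro x hx1 hx2
  rcases hxs : x.s with _ | _
  · exact hinner x hxs hx1 hx2
  · have hxb : (x * b).s = false := by rw [Cor.mul_s, hxs, h.hb.1]; rfl
    have h5 := hinner (x * b) hxb
      (Subgroup.mul_mem _ hx1 (Subgroup.subset_closure (by simp)))
      (Subgroup.mul_mem _ hx2 (Subgroup.subset_closure (by simp)))
    have : x = (x * b) * b := by rw [mul_assoc, hbb, mul_one]
    rw [this]
    exact Subgroup.mul_mem _ h5 hb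

end Pool.SCG
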