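import Pool.Agent.H24.SCG3.EC2

/-! Project SCG3, row EYP: the powers of `b * c`. -/

namespace Pool.SCG

open Matrix

section

variable {F : Type} [Field F]

/-- the homology with factor `t`, scaled with `l` -/
noncomputable def Hm (β t l : F) : M3 F :=
  l • (1 + vecMulVec (((t - 1) * (1 + β + β ^ 2)⁻¹) • ![1 + β, 0, β]) ![1 + β, 0, 1])

theorem s_ne {β : F} (h3 : β ^ 3 ≠ 1) : 1 + β + β ^ 2 ≠ 0 := by
  intro h
  apply h3
  linear_combination (β - 1) * h

theorem Hm_entries (β t l : F) : Hm β t l =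
    !![l * (1 + (t - 1) * (1 + β + β ^ 2)⁻¹ * (1 + β) ^ 2), 0,
        l * ((t - 1) * (1 + β + β ^ 2)⁻¹ * (1 + β));
      0, l, 0;
      l * ((t - 1) * (1 + β + β ^ 2)⁻¹ * β * (1 + β)), 0,
        l * (1 + (t - 1) * (1 + β + β ^ 2)⁻¹ * β)] := by
  ext i j
  fin_cases i <;> fin_cases j <;>
    simp [Hm, -mul_eq_mul_left_iff] <;> ring

theorem Hm_one (β : F) : Hm β 1 1 = 1 := by
  rw [Hm_entries]
  ext i j
  fin_cases i <;> fin_cases j <;> simp

theorem Hm_mul (h2 : (2 : F) = 0) {β : F} (h3 : β ^ 3 ≠ 1) (t l t' l' : F) :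
    Hm β t l * Hm β t' l' = Hm β (t * t') (l * l') := by
  have hs := s_ne h3
  rw [Hm_entries, Hm_entries, Hm_entries]
  have e : (1 + β + β ^ 2) * (1 + β + β ^ 2)⁻¹ = 1 := mul_inv_cancel₀ hs
  set r := (1 + β + β ^ 2)⁻¹ with hr
  ext i j
  fin_cases i <;> fin_cases j <;> simp [Matrix.mul_apply, Fin.sum_univ_three]
  · linear_combination (l * l' * (t - 1) * (t' - 1) * r * (1 + β) ^ 2) * e +
      (l * l' * (t - 1) * (t' - 1) * r * r * (1 + β) ^ 2 * β) * h2
  · linear_combination (l * l' * (t - 1) * (t' - 1) * r * (1 + β)) * e +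
      (l * l' * (t - 1) * (t' - 1) * r * r * (1 + β) * β) * h2
  · linear_combination (l * l' * (t - 1) * (t' - 1) * r * β * (1 + β)) * e +
      (l * l' * (t - 1) * (t' - 1) * r * r * β * (1 + β) * β) * h2
  · linear_combination (l * l' * (t - 1) * (t' - 1) * r * β) * e +
      (l * l' * (t - 1) * (t' - 1) * r * r * β * β) * h2

theorem bc_is (h2 : (2 : F) = 0) {β : F} (h0 : β ≠ 0) (h3 : β ^ 3 ≠ 1) {a b c d : Cor F}
    (h : GensE β a b c d) : Is (b * c) false (Hm β (β⁻¹ ^ 3) β) := by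
  have hs := s_ne h3
  have h1 : dg β β⁻¹ 1 * dg β⁻¹ β 1 = 1 := by
    ext i j
    fin_cases i <;> fin_cases j <;> simp [dg, Matrix.mul_apply, Fin.sum_univ_three, h0]
  have h4 := h.hb.mul_outer' h.hc h1
  have hν : (β⁻¹ ^ 3 - 1) * (1 + β + β ^ 2)⁻¹ = (1 - β) * β⁻¹ ^ 3 := by
    field_simp
    ring
  have h5 : (dg β⁻¹ β 1).transpose * !![1 + (β + β⁻¹), 0, β + β⁻¹; 0, 1, 0;
      β + β⁻¹, 0, 1 + (β + β⁻¹)] = Hm β (β⁻¹ ^ 3) β := by
    rw [Hm_entries, hν]
    have e : β * β⁻¹ = 1 := mul_inv_cancel₀ h0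
    ext i j
    fin_cases i <;> fin_cases j <;> simp [dg, Matrix.mul_apply, Fin.sum_univ_three]
    · field_simp
      linear_combination (β ^ 2) * h2
    · field_simp
      linear_combination (β ^ 2) * h2
    · field_simp
      linear_combination (β ^ 2) * h2
    · field_simp
      linear_combination β * h2
  rw [h5] at h4
  simpa using h4

theorem bc_pow (h2 : (2 : F) = 0) {β : F} (h0 : β ≠ 0) (h3 : β ^ 3 ≠ 1) {a b c d : Cor F}
    (h : GensE β a b c d) (k : ℕ) : Is ((b * c) ^ k) false (Hm β (β⁻¹ ^ (3 * k)) (β ^ k)) := by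
  induction k with
  | zero =>
    rw [pow_zero, mul_zero, pow_zero, pow_zero, Hm_one]
    exact is_one
  | succ k ih =>
    have h1 := ih.mul_inner (bc_is h2 h0 h3 h)
    rw [Hm_mul h2 h3] at h1
    rw [pow_succ, mul_add, mul_one, pow_add, pow_succ β]
    exact h1

end

theorem eyp_thm : EYPStmt := by
  intro F _ β h2 h0 h3 a b c d h k
  exact bc_pow h2 h0 h3 h k

end Pool.SCG
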