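import Pool.Agent.H24.SCG3.EYP

/-! Project SCG3, row EYS: first and second intersection condition. -/

namespace Pool.SCG

open Matrix

theorem eys_thm : EYSStmt := by
  intro F _ β h2 h0 h3 a b c d h
  have hs := s_ne h3
  have hsq : ∀ l : F, l * l = 1 → l = 1 := by
    intro l hl
    have : (l - 1) * (l - 1) = 0 := by linear_combination hl + (1 - l) * h2
    exact sub_eq_zero.1 (mul_self_eq_zero.1 this)
  have hb1 : 1 + β ≠ 0 := by
    intro h1
    apply h3
    linear_combination (β ^ 2 - β + 1) * h1 - h2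
  have hfin : ∀ k : ℕ, β ^ k = 1 → (b * c) ^ k = 1 := by
    intro k hk
    have h4 := bc_pow h2 h0 h3 h k
    have ht : β⁻¹ ^ (3 * k) = 1 := by
      rw [inv_pow, mul_comm, pow_mul, hk, one_pow, inv_one]
    rw [ht, hk, Hm_one] at h4
    exact h4.ext is_one
  constructor
  · intro k hk
    have h4 := bc_pow h2 h0 h3 h k
    rw [comm_inner_outer_iff h4 h.hd, Hm_entries] at hk
    have hl : β ^ k ≠ 0 := pow_ne_zero k h0
    have e1 := congrFun (congrFun hk 0) 0
    have e2 := congrFun (congrFun hk 0) 1
    simp [Matrix.mul_apply, Fin.sum_univ_three, h0, hb1, hs] at e1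
    simp [Matrix.mul_apply, Fin.sum_univ_three, e1] at e2
    exact hfin k (hsq _ e2)
  · intro k hk
    have h4 := bc_pow h2 h0 h3 h k
    rw [comm_inner_outer_iff h4 h.ha, Hm_entries] at hk
    have e1 := congrFun (congrFun hk 1) 1
    simp [dg, Matrix.mul_apply, Fin.sum_univ_three] at e1
    exact hfin k (hsq _ (by simpa using e1))

end Pool.SCG
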