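import Pool.Agent.H24.SCG3.Stmts6
import Pool.Agent.H24.SCG2.Base3

/-! Project SCG3: linear algebra in dimension three. -/

namespace Pool.SCG

open Matrix

section

variable {F : Type} [Field F]

theorem dot3' (x y : Fin 3 → F) : x ⬝ᵥ y = x 0 * y 0 + x 1 * y 1 + x 2 * y 2 := by
  rw [dotProduct, Fin.sum_univ_three]

/-- three dependent vectors -/
theorem dep3 {u v w : Fin 3 → F} (h : (Matrix.of ![u, v, w]).det = 0) :
    ∃ α β γ : F, (α ≠ 0 ∨ β ≠ 0 ∨ γ ≠ 0) ∧ α • u + β • v + γ • w = 0 := by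
  obtain ⟨y, hy, h1⟩ := Matrix.exists_vecMul_eq_zero_iff.2 h
  refine ⟨y 0, y 1, y 2, ?_, ?_⟩
  · by_contra hno
    push Not at hno
    apply hy
    funext i
    fin_cases i
    · exact hno.1
    · exact hno.2.1
    · exact hno.2.2
  · funext i
    have := congrFun h1 i
    simpa [Matrix.vecMul, dotProduct, Fin.sum_univ_three] using this

theorem dot_comb {α β γ : F} {u v w : Fin 3 → F} (h : α • u + β • v + γ • w = 0)
    (x : Fin 3 → F) : α * (x ⬝ᵥ u) + β * (x ⬝ᵥ v) + γ * (x ⬝ᵥ w) = 0 := by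
  have h1 : x ⬝ᵥ (α • u + β • v + γ • w) = 0 := by rw [h, dotProduct_zero]
  rw [dotProduct_add, dotProduct_add, dotProduct_smul, dotProduct_smul, dotProduct_smul] at h1
  simpa using h1

/-- a functional which kills a basis is zero -/
theorem kill3 {u v w χ : Fin 3 → F} (h : (Matrix.of ![u, v, w]).det ≠ 0) (hu : χ ⬝ᵥ u = 0)
    (hv : χ ⬝ᵥ v = 0) (hw : χ ⬝ᵥ w = 0) : χ = 0 := by
  by_contra hχ
  apply h
  apply Matrix.exists_mulVec_eq_zero_iff.1
  refine ⟨χ, hχ, ?_⟩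
  funext i
  fin_cases i
  · show u ⬝ᵥ χ = 0
    rw [dotProduct_comm]; exact hu
  · show v ⬝ᵥ χ = 0
    rw [dotProduct_comm]; exact hv
  · show w ⬝ᵥ χ = 0
    rw [dotProduct_comm]; exact hw

/-- a symmetric form -/
theorem form_symm {S : M3 F} (hS : S.transpose = S) (x y : Fin 3 → F) :
    (S *ᵥ x) ⬝ᵥ y = (S *ᵥ y) ⬝ᵥ x := by
  rw [dotProduct_comm, dotProduct_mulVec, ← mulVec_transpose, hS, dotProduct_comm,
    dotProduct_comm x]

theorem inner_cases (hINV : EINVStmt) {x : Cor F} (h2 : (2 : F) = 0) (hx : Iv x)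
    (hs : x.s = false) : ∃ u φ : Fin 3 → F, El x u φ := by
  rcases hINV F h2 x hx with h | ⟨S, hS⟩
  · exact h
  · exact absurd (hs.symm.trans hS.is.1) (by simp)

theorem outer_cases (hINV : EINVStmt) {x : Cor F} (h2 : (2 : F) = 0) (hx : Iv x)
    (hs : x.s = true) : ∃ S : M3 F, Pl x S := by
  rcases hINV F h2 x hx with ⟨u, φ, h⟩ | h
  · exact absurd (hs.symm.trans h.is.1) (by simp)
  · exact h

end

end Pool.SCG
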