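import Pool.Agent.H1.SCG.ZODD
import Pool.Agent.H1.SCG2.BVW
import Pool.Agent.H1.SCG2.BVZ
import Pool.Agent.H1.SCG2.DK1
import Pool.Agent.H1.SCG2.EXGZ
import Pool.Agent.H1.SCG2.FTL
import Pool.Agent.H1.SCG2.GPA
import Pool.Agent.H1.SCG2.S5Z
import Pool.Agent.H1.SCG2.T5C
import Pool.Agent.H1.SCG3.EQC
import Pool.Agent.H12.SCG.NORM
import Pool.Agent.H12.SCG.UPP
import Pool.Agent.H13.SCG.AUI
import Pool.Agent.H13.SCG.C2S
import Pool.Agent.H15.SCG2.CGR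
import Pool.Agent.H15.SCG2.DBIG
import Pool.Agent.H15.SCG2.HUA
import Pool.Agent.H15.SCG2.PAR
import Pool.Agent.H15.SCG2.Q7R
import Pool.Agent.H15.SCG2.SIDE
import Pool.Agent.H15.SCG2.SQO
import Pool.Agent.H17.SCG.C3P
import Pool.Agent.H17.SCG.C3Q
import Pool.Agent.H17.SCG3.EQAB
import Pool.Agent.H20.SCG2.SWZ
import Pool.Agent.H22.SCG.C1B
import Pool.Agent.H22.SCG.SD
import Pool.Agent.H22.SCG2.FGG
import Pool.Agent.H24.SCG.BCJ
import Pool.Agent.H24.SCG.C2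
import Pool.Agent.H24.SCG.Fin
import Pool.Agent.H24.SCG.INV
import Pool.Agent.H24.SCG.U5
import Pool.Agent.H24.SCG2.PBCJ
import Pool.Agent.H24.SCG2.PC1A
import Pool.Agent.H24.SCG2.PC1B
import Pool.Agent.H24.SCG2.PC2A
import Pool.Agent.H24.SCG2.PC2B
import Pool.Agent.H24.SCG2.PC2C
import Pool.Agent.H24.SCG2.PC2D
import Pool.Agent.H24.SCG2.PC2E
import Pool.Agent.H24.SCG2.PC2F
import Pool.Agent.H24.SCG2.PC2G
import Pool.Agent.H24.SCG2.PC2H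
import Pool.Agent.H24.SCG2.PC2S
import Pool.Agent.H24.SCG2.PC2W
import Pool.Agent.H24.SCG2.PC2X
import Pool.Agent.H24.SCG2.PC3A
import Pool.Agent.H24.SCG2.PC3D
import Pool.Agent.H24.SCG2.PC3P
import Pool.Agent.H24.SCG2.PNORM
import Pool.Agent.H24.SCG2.R3R
import Pool.Agent.H24.SCG3.EABS
import Pool.Agent.H24.SCG3.EAR
import Pool.Agent.H24.SCG3.EC2
import Pool.Agent.H24.SCG3.EC3
import Pool.Agent.H24.SCG3.EINV
import Pool.Agent.H24.SCG3.EUP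
import Pool.Agent.H24.SCG3.EW1
import Pool.Agent.H24.SCG3.EW2
import Pool.Agent.H24.SCG3.EW3
import Pool.Agent.H24.SCG3.EW4
import Pool.Agent.H24.SCG3.EW5
import Pool.Agent.H24.SCG3.EW6
import Pool.Agent.H24.SCG3.EYE
import Pool.Agent.H24.SCG3.EYI
import Pool.Agent.H24.SCG3.EYS
import Pool.Agent.H26.SCG.IRR
import Pool.Agent.H26.SCG.LP
import Pool.Agent.H26.SCG.NC
import Pool.Agent.H29.SCG.C1A
import Pool.Agent.H33.SCG.ZPP
import Pool.Agent.H33.SCG2.EXSZ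
import Pool.Agent.H33.SCG2.EXT
import Pool.Agent.H33.SCG2.R6
import Pool.Agent.H33.SCG2.TRV
import Pool.Agent.H34.SCG2.FIN5
import Pool.Agent.H34.SCG2.FINZ
import Pool.Agent.H34.SCG2.UPZ
import Pool.Agent.H34.SCG3.FINE
import Pool.Agent.H34.SCG3.FNNP
import Pool.Agent.H38.SCG3.ENC
import Pool.Agent.H38.SCG3.EYG
import Pool.Agent.H38.SCG3.EYR
import Pool.Agent.H4.SCG2.CONM
import Pool.Agent.H4.SCG2.IOTZ
import Pool.Agent.H4.SCG3.EMIX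
import Pool.Agent.H40.SCG.C3D
import Pool.Agent.H40.SCG.NQ
import Pool.Agent.H40.SCG.ZAX
import Pool.Agent.H40.SCG2.CNJ
import Pool.Agent.H40.SCG2.CTH
import Pool.Agent.H40.SCG2.DK0
import Pool.Agent.H41.SCG2.DFIN
import Pool.Agent.H41.SCG2.DPAR
import Pool.Agent.H42.SCG.C2A
import Pool.Agent.H42.SCG.C2E
import Pool.Agent.H43.SCG.ST4
import Pool.Agent.H44.SCG2.EXZ1
import Pool.Agent.H44.SCG2.FINAL
import Pool.Agent.H50.SCG3.EQX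
import Pool.Agent.H52.SCG.FAO
import Pool.Agent.H52.SCG.GOO
import Pool.Agent.H52.SCG2.CEX
import Pool.Agent.H52.SCG2.DGE
import Pool.Agent.H52.SCG2.EXZ2
import Pool.Agent.H52.SCG2.FAOZ
import Pool.Agent.H52.SCG2.IRZ
import Pool.Agent.H52.SCG2.LIF5
import Pool.Agent.H52.SCG2.W1
import Pool.Agent.H52.SCG2.W2
import Pool.Agent.H54.SCG2.Mono
import Pool.Agent.H54.SCG2.T5N
import Pool.Agent.H54.SCG2.WIN
import Pool.Agent.H54.SCG3.EALT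
import Pool.Agent.H55.SCG2.C3QZ
import Pool.Agent.H55.SCG2.DGT
import Pool.Agent.H55.SCG2.EXCZ
import Pool.Agent.H55.SCG2.EXQ
import Pool.Agent.H57.SCG2.FGI
import Pool.Agent.H57.SCG2.FGR
import Pool.Agent.H58.SCG.ODC
import Pool.Agent.H58.SCG2.CGG
import Pool.Agent.H58.SCG2.PLN
import Pool.Agent.H58.SCG2.PSI
import Pool.Agent.H6.SCG2.CGI
import Pool.Agent.H6.SCG2.CGS
import Pool.Agent.H6.SCG2.R3S
import Pool.Agent.H6.SCG2.SL2P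
import Pool.Agent.H60.SCG2.ELM
import Pool.Agent.H60.SCG2.FEX
import Pool.Agent.H60.SCG2.Q7S
import Pool.Agent.H62.SCG.AUF
import Pool.Agent.H62.SCG.AUN
import Pool.Agent.H62.SCG2.AUFZ
import Pool.Agent.H62.SCG2.AUIZ
import Pool.Agent.H62.SCG2.FGS
import Pool.Agent.H62.SCG2.LP3
import Pool.Agent.H62.SCG2.ZPP3
import Pool.Agent.H63.SCG2.BIG
import Pool.Agent.H63.SCG2.Q7G
import Pool.Agent.H63.SCG3.EC1
import Pool.Agent.H63.SCG3.ENF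
import Pool.Agent.H63.SCG3.EODD
import Pool.Agent.H64.SCG.BCJ
import Pool.Agent.H64.SCG.C2D
import Pool.Agent.H64.SCG.EXA
import Pool.Agent.H64.SCG.EXB
import Pool.Agent.H64.SCG.EXR
import Pool.Agent.H64.SCG.IOT
import Pool.Agent.H64.SCG2.AUNZ
import Pool.Agent.H64.SCG2.E34
import Pool.Agent.H64.SCG2.Q7I
import Pool.Agent.H64.SCG2.R3G
import Pool.Agent.H66.SCG2.C2Z
import Pool.Agent.H66.SCG2.LFT
import Pool.Agent.H66.SCG2.RELZ
import Pool.Agent.H66.SCG2.U5Z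
import Pool.Agent.H66.SCG3.EAUI
import Pool.Agent.H66.SCG3.EIOT
import Pool.Agent.H66.SCG3.EIRR
import Pool.Agent.H67.SCG2.FINQ
import Pool.Agent.H67.SCG2.ST4B
import Pool.Agent.H67.SCG2.UPQ
import Pool.Agent.H70.SCG2.E12
import Pool.Agent.H72.SCG2.TRN
import Pool.Agent.H73.SCG.C2G
import Pool.Agent.H73.SCG.EX
import Pool.Agent.H73.SCG.MON
import Pool.Agent.H75.SCG.C2H
import Pool.Agent.H75.SCG.C3A
import Pool.Agent.H75.SCG.EXC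
import Pool.Agent.H77.SCG2.UUG
import Pool.Agent.H82.SCG.BV
import Pool.Agent.H82.SCG.EXG
import Pool.Agent.H83.SCG2.GENT
import Pool.Agent.H83.SCG2.NCZ
import Pool.Agent.H84.SCG.C2F
import Pool.Agent.H84.SCG.PHI
import Pool.Agent.H87.SZ.BCZ
import Pool.Agent.H88.SCG.C2B
import Pool.Agent.H88.SCG.C2X
import Pool.Agent.H92.SCG2.CGA
import Pool.Agent.H92.SCG2.R3I
import Pool.Agent.H95.SCG.TQD
import Pool.Agent.H95.SCG.TQT
import Pool.Agent.H97.SCG2.NFD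
import Pool.Agent.H99.SCG.C2C
import Pool.Agent.H99.SCG.C2W

/-! Assembly of the projects SCG2, SCG3. -/

namespace Pool.SCG

theorem main3 : FNNPStmt := by
  have mREVw : REVwStmt := _root_.Pool.Agent.H24.SCG2.PBCJ.rev_thm
  have mEINV : EINVStmt := _root_.Pool.SCG.einv_thm
  have mEC1 : EC1Stmt := _root_.Pool.Agent.H63.SCG3.ec1_thm
  have mEC2 : EC2Stmt := _root_.Pool.SCG.ec2_thm
  have mEODD : EODDStmt := _root_.Pool.Agent.H63.SCG3.eodd_thm mEINV mEC1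
  have mEMIX : EMIXStmt := _root_.Pool.Agent.H4.SCG3.emix_thm mEINV mEC1 mEC2 mEODD
  have mEABS : EABSStmt := _root_.Pool.SCG.eabs_thm
  have mEAR : EARStmt := _root_.Pool.SCG.ear_thm
  have mEW1 : EW1Stmt := _root_.Pool.SCG.ew1_thm mEINV mEC1 mEC2 mEABS mEAR
  have mEC3 : EC3Stmt := _root_.Pool.SCG.ec3_thm mEINV
  have mEW2 : EW2Stmt := _root_.Pool.SCG.ew2_thm mEINV mEC1 mEC3 mEAR
  have mEW3 : EW3Stmt := _root_.Pool.SCG.ew3_thm mEINV mEC1 mEC2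
  have mEW4 : EW4Stmt := _root_.Pool.SCG.ew4_thm mEINV mEC1 mEC2 mEC3 mEAR
  have mEW5 : EW5Stmt := _root_.Pool.SCG.ew5_thm mEINV mEC1 mEC2
  have mEW6 : EW6Stmt := _root_.Pool.SCG.ew6_thm mREVw mEMIX mEW1 mEW2 mEW3 mEW4 mEW5
  have mENF : ENFStmt := _root_.Pool.Agent.H63.SCG3.enf_thm
  have mENC : ENCStmt := _root_.Pool.Agent.H38.SCG3.enc_thm mEAR mEINV mEC1 mEC2 mENF
  have mEIRR : EIRRStmt := _root_.Pool.Agent.H66.SCG3.eirr_thm mENC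
  have mEALT : EALTStmt := _root_.Pool.Agent.H54.SCG3.ealt_thm mEC1
  have mEBV : EBVStmt := _root_.Pool.Agent.H54.SCG3.ebv_thm mEINV mEALT
  have mAUNZ : AUNZStmt := _root_.Pool.Agent.H64.SCG2.AUNZ.AUNZ_thm
  have mAUFZ : AUFZStmt := _root_.Pool.Agent.H62.SCG2.aufz_thm
  have mEAUI : EAUIStmt := _root_.Pool.Agent.H66.SCG3.eaui_thm mAUNZ mAUFZ mEAR
  have mEIOT : EIOTStmt := _root_.Pool.Agent.H66.SCG3.eiot_thm
  have mEQA : EQAStmt := _root_.Pool.Agent.H17.SCG3.eqa_thm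
  have mEQB : EQBStmt := _root_.Pool.Agent.H17.SCG3.eqb_thm
  have mEQC : EQCStmt := _root_.Pool.SCG.eqc_thm mEQA mEQB mEMIX
  have mEUP : EUPStmt := _root_.Pool.SCG.eup_thm mEW6 mEIRR mEBV mEAUI mEIOT mEQC mEAR
  have mEQX : EQXStmt := _root_.Pool.Agent.H50.SCG3.eqx_thm mEIOT
  have mST4B : ST4BStmt := _root_.Pool.Agent.H67.SCG2.st4b_thm
  have mEYR : EYRStmt := _root_.Pool.Agent.H38.SCG3.eyr_thm
  have mEYS : EYSStmt := _root_.Pool.SCG.eys_thm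
  have mEYI : EYIStmt := _root_.Pool.SCG.eyi_thm
  have mEYG : EYGStmt := _root_.Pool.Agent.H38.SCG3.eyg_thm
  have mTRN : TRNStmt := _root_.Pool.SCG.trn_thm
  have mEYE : EYEStmt := _root_.Pool.SCG.eye_thm mST4B mEYR mEYS mEYI mEYG mEAR mTRN mEIOT
  have mDGT : DGTStmt := _root_.Pool.Agent.H55.SCG2.dgt_thm
  have mFINE : FINEStmt := _root_.Pool.Agent.H34.SCG3.fine_thm mEUP mEQX mEYE mEAR mDGT
  have mEXT : EXTStmt := _root_.Pool.Agent.H33.SCG2.ext_thm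
  have mFAOZ : FAOZStmt := _root_.Pool.Agent.H52.SCG2.faoz_thm
  have mAUIZ : AUIZStmt := _root_.Pool.Agent.H62.SCG2.auiz_thm mAUNZ mAUFZ mFAOZ
  have mINV : INVStmt := _root_.Pool.SCG.inv_thm
  have mNCZ : NCZStmt := _root_.Pool.Agent.H83.SCG2.ncz_thm mINV
  have mIRZ : IRZStmt := _root_.Pool.Agent.H52.SCG2.irz_thm mNCZ
  have mHCM : HCMStmt := _root_.Pool.SCG.hcm_thm
  have mBVw : BVwStmt := _root_.Pool.Agent.H1.SCG2.bvw_thm mINV mHCM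
  have mGENT : GENTStmt := _root_.Pool.Agent.H83.SCG2.gent_thm
  have mBVZ : BVZStmt := _root_.Pool.Agent.H1.SCG2.bvz_thm mBVw mGENT
  have mGPA : GPAStmt := _root_.Pool.Agent.H1.SCG2.gpa_thm
  have mWIN : WINStmt := _root_.Pool.Agent.H54.SCG2.win_thm
  have mRELZ : RELZStmt := _root_.Pool.Agent.H66.SCG2.relz_thm
  have mLFT : LFTStmt := _root_.Pool.Agent.H66.SCG2.lft_thm
  have mLIF5 : LIF5Stmt := _root_.Pool.Agent.H52.SCG2.lif5_thm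
  have mS5Z : S5ZStmt := _root_.Pool.Agent.H1.SCG2.s5z_thm mRELZ mLFT mLIF5
  have mPAR : PARStmt := _root_.Pool.Agent.H15.SCG2.par_thm
  have mSWZ : SWZStmt := _root_.Pool.Agent.H20.SCG2.swz_thm
  have mBCZ : BCZStmt := _root_.Pool.SCG.bcz_thm
  have mRVZ : RVZStmt := _root_.Pool.SCG.rvz_thm
  have mT5C : T5CStmt := _root_.Pool.Agent.H1.SCG2.t5c_thm
  have mBCJw : BCJwStmt := _root_.Pool.Agent.H24.SCG2.PBCJ.bcj_thm
  have mSD : SDStmt := _root_.Pool.Agent.H22.SCG.sd_thm mINV mHCM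
  have mNORMw : NORMwStmt := _root_.Pool.Agent.H24.SCG2.PNORM.norm_thm mSD
  have mZAX : ZAXStmt := _root_.Pool.Agent.H40.SCG.zax_thm
  have mZODD : ZODDStmt := _root_.Pool.Agent.H1.SCG.zodd_thm
  have mODC : ODCStmt := _root_.Pool.Agent.H58.SCG.odc_thm mZAX mZODD
  have mNQ : NQStmt := _root_.Pool.Agent.H40.SCG.nq_thm mODC
  have mTQT : TQTStmt := _root_.Pool.Agent.H95.SCG.tqt_thm mNQ
  have mC1Aw : C1AwStmt := _root_.Pool.Agent.H24.SCG2.PC1A.c1a_thm mINV mHCM mTQT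
  have mHCO : HCOStmt := _root_.Pool.SCG.hco_thm
  have mC1Bw : C1BwStmt := _root_.Pool.Agent.H24.SCG2.PC1B.c1b_thm mINV mHCO
  have mC2Hw : C2HwStmt := _root_.Pool.Agent.H24.SCG2.PC2H.c2h_thm mINV mHCM mHCO
  have mC2Aw : C2AwStmt := _root_.Pool.Agent.H24.SCG2.PC2A.c2a_thm mINV mHCO
  have mC2Bw : C2BwStmt := _root_.Pool.Agent.H24.SCG2.PC2B.c2b_thm mINV mHCO
  have mC2Ew : C2EwStmt := _root_.Pool.Agent.H24.SCG2.PC2E.c2e_thm mTQT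
  have mTQD : TQDStmt := _root_.Pool.Agent.H95.SCG.tqd_thm mNQ
  have mC2Dw : C2DwStmt := _root_.Pool.Agent.H24.SCG2.PC2D.c2d_thm mTQD
  have mC2Ww : C2WwStmt := _root_.Pool.Agent.H24.SCG2.PC2W.c2w_thm
  have mC2Fw : C2FwStmt := _root_.Pool.Agent.H24.SCG2.PC2F.c2f_thm
  have mC2Gw : C2GwStmt := _root_.Pool.Agent.H24.SCG2.PC2G.c2g_thm
  have mC2Cw : C2CwStmt := _root_.Pool.Agent.H24.SCG2.PC2C.c2c_thm
  have mC2Xw : C2XwStmt := _root_.Pool.Agent.H24.SCG2.PC2X.c2x_thm mTQD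
  have mC2Sw : C2SwStmt := _root_.Pool.Agent.H24.SCG2.PC2S.c2s_thm
  have mMA1 : MA1Stmt := _root_.Pool.Agent.H54.SCG2.ma1_thm
  have mMB1 : MB1Stmt := _root_.Pool.Agent.H54.SCG2.mb1_thm
  have mTA : TAStmt := _root_.Pool.Agent.H54.SCG2.ta_thm
  have mTB : TBStmt := _root_.Pool.Agent.H54.SCG2.tb_thm
  have mC2Z : C2ZStmt := _root_.Pool.Agent.H66.SCG2.c2z_thm mPAR mSWZ mBCZ mT5C mC2Hw mC2Aw mC2Bw mC2Ew mC2Dw mC2Ww mC2Fw mC2Gw mC2Cw mC2Xw mC2Sw mMA1 mMB1 mTA mTB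
  have mC3Aw : C3AwStmt := _root_.Pool.Agent.H24.SCG2.PC3A.c3a_thm mINV mHCM mHCO
  have mC3Dw : C3DwStmt := _root_.Pool.Agent.H24.SCG2.PC3D.c3d_thm mINV mHCO
  have mC3Pw : C3PwStmt := _root_.Pool.Agent.H24.SCG2.PC3P.c3p_thm mINV mHCO
  have mZPP : ZPPStmt := _root_.Pool.Agent.H33.SCG.zpp_thm
  have mLP : LPStmt := _root_.Pool.Agent.H26.SCG.lp_thm mZPP mZAX
  have mPHI : PHIStmt := _root_.Pool.Agent.H84.SCG.phi_thm
  have mZPP3 : ZPP3Stmt := _root_.Pool.Agent.H62.SCG2.zpp3_thm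
  have mLP3 : LP3Stmt := _root_.Pool.Agent.H62.SCG2.lp3_thm mZPP3 mZAX
  have mSIDE : SIDEStmt := _root_.Pool.Agent.H15.SCG2.side_thm mLP3 mPHI
  have mDK0 : DK0Stmt := _root_.Pool.Agent.H40.SCG2.dk0_thm
  have mDPAR : DPARStmt := _root_.Pool.Agent.H41.SCG2.dpar_thm mDK0 mZAX
  have mSL2P : SL2PStmt := _root_.Pool.Agent.H6.SCG2.sl2p_thm
  have mW1 : W1Stmt := _root_.Pool.Agent.H52.SCG2.w1_thm
  have mELM : ELMStmt := _root_.Pool.Agent.H60.SCG2.elm_thm mDPAR mSL2P mW1 mPHI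
  have mE12 : E12Stmt := _root_.Pool.Agent.H70.SCG2.e12_thm mELM mPAR
  have mC3QZ : C3QZStmt := _root_.Pool.Agent.H55.SCG2.c3qz_thm mLP mPHI mSIDE mE12 mPAR
  have mNFD : NFDStmt := _root_.Pool.Agent.H97.SCG2.nfd_thm mPAR
  have mDK1 : DK1Stmt := _root_.Pool.Agent.H1.SCG2.dk1_thm
  have mBIG : BIGStmt := _root_.Pool.Agent.H63.SCG2.big_thm mDPAR mDK1 mZAX
  have mHUA : HUAStmt := _root_.Pool.Agent.H15.SCG2.hua_thm
  have mSQO : SQOStmt := _root_.Pool.Agent.H15.SCG2.sqo_thm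
  have mDBIG : DBIGStmt := _root_.Pool.Agent.H15.SCG2.dbig_thm mBIG mHUA mSQO mPHI mPAR
  have mW2 : W2Stmt := _root_.Pool.Agent.H52.SCG2.w2_thm
  have mE34 : E34Stmt := _root_.Pool.Agent.H64.SCG2.E34_thm mELM mPAR
  have mDFIN : DFINStmt := _root_.Pool.Agent.H41.SCG2.dfin_thm mSIDE mDBIG mW2 mE34 mPAR
  have mU5Z : U5ZStmt := _root_.Pool.Agent.H66.SCG2.u5z_thm mPAR mSWZ mBCZ mRVZ mT5C mBCJw mREVw mNORMw mC1Aw mC1Bw mC2Z mC3Aw mC3Dw mC3Pw mC3QZ mNFD mDFIN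
  have mT5N : T5NStmt := _root_.Pool.Agent.H54.SCG2.t5n_thm mRELZ
  have mR6 : R6Stmt := _root_.Pool.Agent.H33.SCG2.r6_thm mRELZ mS5Z mU5Z
  have mUPZ : UPZStmt := _root_.Pool.Agent.H34.SCG2.upz_thm mEXT mAUIZ mIRZ mBVZ mGPA mWIN mS5Z mU5Z mT5N mR6
  have mEXR : EXRStmt := _root_.Pool.Agent.H64.SCG.exr_thm
  have mEXSZ : EXSZStmt := _root_.Pool.Agent.H33.SCG2.exsz_thm
  have mEXCZ : EXCZStmt := _root_.Pool.Agent.H55.SCG2.excz_thm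
  have mEXGZ : EXGZStmt := _root_.Pool.Agent.H1.SCG2.exgz_thm
  have mIOTZ : IOTZStmt := _root_.Pool.Agent.H4.SCG2.iotz_thm
  have mEXZ1 : EXZ1Stmt := _root_.Pool.Agent.H44.SCG2.exz1_thm mST4B mEXR mEXSZ mEXCZ mEXGZ mIOTZ
  have mDGE : DGEStmt := _root_.Pool.Agent.H52.SCG2.dge_thm
  have mCEX : CEXStmt := _root_.Pool.Agent.H52.SCG2.cex_thm mSQO mPAR
  have mCGR : CGRStmt := _root_.Pool.Agent.H15.SCG2.cgr_thm
  have mCGS : CGSStmt := _root_.Pool.Agent.H6.SCG2.cgs_thm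
  have mCGI : CGIStmt := _root_.Pool.Agent.H6.SCG2.cgi_thm
  have mTRV : TRVStmt := _root_.Pool.Agent.H33.SCG2.trv_thm mGENT
  have mPLN : PLNStmt := _root_.Pool.SCG.pln_thm mTRV
  have mCGA : CGAStmt := _root_.Pool.SCG.cga_thm mBIG mHUA mSQO mPAR
  have mCGG : CGGStmt := _root_.Pool.SCG.cgg_thm mPAR mPLN mCGA
  have mQ7R : Q7RStmt := _root_.Pool.Agent.H15.SCG2.q7r_thm
  have mQ7S : Q7SStmt := _root_.Pool.Agent.H60.SCG2.q7s_thm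
  have mQ7I : Q7IStmt := _root_.Pool.Agent.H64.SCG2.Q7I.Q7I_thm
  have mQ7G : Q7GStmt := _root_.Pool.Agent.H63.SCG2.q7g_thm mPLN
  have mEXZ2 : EXZ2Stmt := _root_.Pool.Agent.H52.SCG2.exz2_thm mPAR mST4B mDGE mCEX mCGR mCGS mCGI mCGG mQ7R mQ7S mQ7I mQ7G
  have mCNJ : CNJStmt := _root_.Pool.Agent.H40.SCG2.cnj_thm
  have mFINZ : FINZStmt := _root_.Pool.Agent.H34.SCG2.finz_thm mUPZ mEXZ1 mEXZ2 mCNJ
  have mNORM : NORMStmt := _root_.Pool.Agent.H12.SCG.norm_thm mSD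
  have mREV : REVStmt := _root_.Pool.SCG.rev_thm
  have mBCJ : BCJStmt := _root_.Pool.Agent.H64.SCG.bcj_thm
  have mC1A : C1AStmt := _root_.Pool.Agent.H29.SCG.c1a_thm mINV mHCM mTQT
  have mC1B : C1BStmt := _root_.Pool.Agent.H22.SCG.c1b_thm mINV mHCO
  have mC2H : C2HStmt := _root_.Pool.Agent.H75.SCG.c2h_thm mINV mHCM mHCO
  have mC2A : C2AStmt := _root_.Pool.Agent.H42.SCG.c2a_thm mINV mHCO
  have mC2B : C2BStmt := _root_.Pool.Agent.H88.SCG.c2b_thm mINV mHCO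
  have mC2E : C2EStmt := _root_.Pool.Agent.H42.SCG.c2e_thm mTQT
  have mC2D : C2DStmt := _root_.Pool.Agent.H64.SCG.c2d_thm mTQD
  have mC2W : C2WStmt := _root_.Pool.Agent.H99.SCG.c2w_thm
  have mC2F : C2FStmt := _root_.Pool.Agent.H84.SCG.c2f_thm
  have mC2G : C2GStmt := _root_.Pool.Agent.H73.SCG.c2g_thm
  have mC2C : C2CStmt := _root_.Pool.Agent.H99.SCG.c2c_thm
  have mC2X : C2XStmt := _root_.Pool.Agent.H88.SCG.c2x_thm mTQD
  have mC2S : C2SStmt := _root_.Pool.Agent.H13.SCG.c2s_thm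
  have mMONA : MONAStmt := _root_.Pool.Agent.H73.SCG.mona_thm
  have mMONB : MONBStmt := _root_.Pool.Agent.H73.SCG.monb_thm
  have mC2 : C2Stmt := _root_.Pool.SCG.c2_thm mBCJ mC2H mC2A mC2B mC2E mC2D mC2W mC2F mC2G mC2C mC2X mC2S mMONA mMONB
  have mC3A : C3AStmt := _root_.Pool.Agent.H75.SCG.c3a_thm mINV mHCM mHCO
  have mC3D : C3DStmt := _root_.Pool.Agent.H40.SCG.c3d_thm mINV mHCO
  have mC3P : C3PStmt := _root_.Pool.Agent.H17.SCG.P.c3p_thm mINV mHCO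
  have mC3Q : C3QStmt := _root_.Pool.Agent.H17.SCG.c3q_thm mLP mPHI
  have mU5 : U5Stmt := _root_.Pool.SCG.u5_thm mNORM mREV mBCJ mC1A mC1B mC2 mC3A mC3D mC3P mC3Q
  have mNC : NCStmt := _root_.Pool.Agent.H26.SCG.nc_thm mINV
  have mIRR : IRRStmt := _root_.Pool.Agent.H26.SCG.irr_thm mNC
  have mBV : BVStmt := _root_.Pool.Agent.H82.SCG.bv_thm mINV mHCM
  have mIOT : IOTStmt := _root_.Pool.Agent.H64.SCG.iot_thm
  have mUPQ : UPQStmt := _root_.Pool.Agent.H67.SCG2.upq_thm mU5 mIRR mBV mAUIZ mIOT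
  have mFEX : FEXStmt := _root_.Pool.Agent.H60.SCG2.fex_thm
  have mFGR : FGRStmt := _root_.Pool.SCG.fgr_thm
  have mFGS : FGSStmt := _root_.Pool.Agent.H62.SCG2.fgs_thm
  have mCTH : CTHStmt := _root_.Pool.Agent.H40.SCG2.cth_thm
  have mFGI : FGIStmt := _root_.Pool.SCG.fgi_thm mCTH
  have mFTL : FTLStmt := _root_.Pool.Agent.H1.SCG2.ftl_thm
  have mCON : CONStmt := _root_.Pool.Agent.H4.SCG2.con_thm mFTL
  have mUUG : UUGStmt := _root_.Pool.Agent.H77.SCG2.uug_thm mTRV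
  have mFGG : FGGStmt := _root_.Pool.Agent.H22.SCG2.fgg_thm mCON mUUG
  have mR3R : R3RStmt := _root_.Pool.Agent.H24.SCG2.r3r_thm
  have mR3S : R3SStmt := _root_.Pool.Agent.H6.SCG2.r3s_thm
  have mR3I : R3IStmt := _root_.Pool.SCG.r3i_thm
  have mR3G : R3GStmt := _root_.Pool.SCG.R3G.R3G_thm mTRV
  have mEXQ : EXQStmt := _root_.Pool.Agent.H55.SCG2.exq_thm mST4B mFEX mFGR mFGS mFGI mFGG mR3R mR3S mR3I mR3G
  have mFINQ : FINQStmt := _root_.Pool.Agent.H67.SCG2.finq_thm mUPQ mEXQ mDGT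
  have mAUN : AUNStmt := _root_.Pool.Agent.H62.SCG.AUN_thm
  have mAUF : AUFStmt := _root_.Pool.Agent.H62.SCG.AUF_thm
  have mFAO : FAOStmt := _root_.Pool.Agent.H52.SCG.fao_thm
  have mGOO : GOOStmt := _root_.Pool.Agent.H52.SCG.goo_thm
  have mAUI : AUIStmt := _root_.Pool.Agent.H13.SCG.aui_thm mAUN mAUF mFAO mGOO
  have mUPP : UPPStmt := _root_.Pool.Agent.H12.SCG.upp_thm mU5 mIRR mBV mAUI mIOT mGOO
  have mST4 : ST4Stmt := _root_.Pool.Agent.H43.SCG.st4_thm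
  have mEXA : EXAStmt := _root_.Pool.Agent.H64.SCG.exa_thm
  have mEXB : EXBStmt := _root_.Pool.Agent.H64.SCG.exb_thm
  have mEXC : EXCStmt := _root_.Pool.Agent.H75.SCG.exc_thm
  have mEXG : EXGStmt := _root_.Pool.Agent.H82.SCG.exg_thm
  have mEX : EXStmt := _root_.Pool.Agent.H73.SCG.ex_thm mST4 mEXR mEXA mEXB mEXC mEXG mIOT mGOO
  have mFIN : FINStmt := _root_.Pool.SCG.fin_thm mUPP mEX mGOO mIOT
  have mFIN5 : FIN5Stmt := _root_.Pool.Agent.H34.SCG2.fin5_thm mFIN mDGT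
  have mFINAL : FINALStmt := _root_.Pool.Agent.H44.SCG2.final_thm mFINZ mFINQ mFIN5
  have mFINN : FINNStmt := _root_.Pool.Agent.H34.SCG3.finn_thm mFINE mFINAL
  have mPSI : PSIStmt := _root_.Pool.SCG.psi_thm mGENT
  exact _root_.Pool.Agent.H34.SCG3.fnnp_thm mFINN mPSI mTRN

end Pool.SCG
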