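import Mathlib

/-!
String C-groups with socle `PSL(3,F)`: the definitions of the statement.

`X` is the group `PSL(3,F)`, given with the homomorphism `p : SL(3,F) → X` (surjective, its kernel
is the centre of `SL(3,F)`); `MulAut X` is the automorphism group of `X`.
-/

namespace Pool.SCG3.Slim

open Matrix

/-- The subgroup `G` of `A` has a string C-group representation of rank `r`: it is generated by
`r` involutions with the string property and the intersection property. -/
def HasStringC {A : Type} [Group A] (G : Subgroup A) (r : ℕ) : Prop :=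
  ∃ ρ : Fin r → A, (∀ i, orderOf (ρ i) = 2) ∧
    (∀ i j : Fin r, i.val + 2 ≤ j.val → ρ i * ρ j = ρ j * ρ i) ∧
    (∀ I J : Set (Fin r),
      Subgroup.closure (ρ '' I) ⊓ Subgroup.closure (ρ '' J) = Subgroup.closure (ρ '' (I ∩ J))) ∧
    Subgroup.closure (Set.range ρ) = G

variable {F X : Type} [Field F] [Group X]

/-- inner automorphisms of `X` -/
def Inner (φ : MulAut X) : Prop := ∃ x, ∀ y, φ y = x * y * x⁻¹

/-- diagonal automorphisms: induced by `g ↦ P g P⁻¹`, `P` in `GL(3,F)` -/
def Diagonal (p : SpecialLinearGroup (Fin 3) F →* X) (φ : MulAut X) : Prop :=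
  ∃ P Q : Matrix (Fin 3) (Fin 3) F, P * Q = 1 ∧ ∀ g h, h.1 = P * g.1 * Q → φ (p g) = p h

/-- field automorphisms: induced by an automorphism of `F`, applied to all entries -/
def Frob (p : SpecialLinearGroup (Fin 3) F →* X) (φ : MulAut X) : Prop :=
  ∃ s : F ≃+* F, ∀ g h, (∀ i j, h.1 i j = s (g.1 i j)) → φ (p g) = p h

/-- the graph automorphism: induced by the inverse transpose -/
def Graph (p : SpecialLinearGroup (Fin 3) F →* X) (φ : MulAut X) : Prop :=
  ∀ g h, h.1ᵀ * g.1 = 1 → φ (p g) = p h

/-- `PSL(3,F) ≤ G ≤ Aut(PSL(3,F))`: `G` contains the inner automorphisms and is contained in the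
group generated by the inner, diagonal, field and graph automorphisms. -/
def Between (p : SpecialLinearGroup (Fin 3) F →* X) (G : Subgroup (MulAut X)) : Prop :=
  (∀ φ, Inner φ → φ ∈ G) ∧
    G ≤ Subgroup.closure {φ | Inner φ ∨ Diagonal p φ ∨ Frob p φ ∨ Graph p φ}

/-- `G` is `PGL(3,F).2`, generated by the diagonal automorphisms and the graph automorphism, or is
conjugate under a diagonal automorphism `d` to `PSL(3,F).2`, the group generated by the inner
automorphisms and the graph automorphism. -/
def Adm (p : SpecialLinearGroup (Fin 3) F →* X) (G : Subgroup (MulAut X)) : Prop :=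
  G = Subgroup.closure {φ | Diagonal p φ ∨ Graph p φ} ∨
    ∃ d, Diagonal p d ∧ ∀ φ, φ ∈ G ↔ d⁻¹ * φ * d ∈ Subgroup.closure {ψ | Inner ψ ∨ Graph p ψ}

end Pool.SCG3.Slim
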