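import Pool.Agent.H24.SCG3.Slim
import Pool.Agent.H24.SCG3.Stmts6

/-!
The statement `FNNPStmt` gives the statement in the form of the file `Slim`.
-/

namespace Pool.SCG3.SlimConv

open Pool.SCG Matrix

section gen

variable {A B : Type} [Group A] [Group B]

theorem has_iff (G : Subgroup A) (r : ℕ) : Slim.HasStringC G r ↔ Pool.SCG.HasStringC G r := by
  constructor
  · rintro ⟨ρ, h1, h2, h3, h4⟩
    exact ⟨ρ, ⟨h1, h2, h3⟩, h4⟩
  · rintro ⟨ρ, ⟨h1, h2, h3⟩, h4⟩
    exact ⟨ρ, h1, h2, h3, h4⟩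

theorem has_map (Φ : A ≃* B) (G : Subgroup A) (r : ℕ) (h : Slim.HasStringC G r) :
    Slim.HasStringC (G.map (Φ : A →* B)) r := by
  obtain ⟨ρ, h1, h2, h3, h4⟩ := h
  have key : ∀ s : Set (Fin r), Subgroup.closure ((fun i => Φ (ρ i)) '' s)
      = (Subgroup.closure (ρ '' s)).map (Φ : A →* B) := by
    intro s
    rw [MonoidHom.map_closure, ← Set.image_comp]
    rfl
  refine ⟨fun i => Φ (ρ i), ?_, ?_, ?_, ?_⟩
  · intro i
    rw [MulEquiv.orderOf_eq]
    exact h1 i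
  · intro i j hij
    show Φ (ρ i) * Φ (ρ j) = Φ (ρ j) * Φ (ρ i)
    rw [← map_mul, ← map_mul, h2 i j hij]
  · intro I J
    rw [key, key, key, ← h3, Subgroup.map_inf _ _ _ Φ.injective]
  · rw [← Set.image_univ, key, Set.image_univ, h4]

theorem has_comap (Φ : A ≃* B) (G : Subgroup B) (r : ℕ) :
    Pool.SCG.HasStringC (G.comap (Φ : A →* B)) r ↔ Slim.HasStringC G r := by
  rw [← has_iff]
  constructor
  · intro h
    have := has_map Φ _ r h
    rwa [Subgroup.map_comap_eq_self_of_surjective Φ.surjective] at this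
  · intro h
    have := has_map Φ.symm _ r h
    rwa [Subgroup.map_equiv_eq_comap_symm, MulEquiv.symm_symm] at this

end gen

variable {F X : Type} [Field F] [Group X]

theorem ker_eq (p : SL3 F →* X) (hk : ∀ g, p g = 1 ↔ ∀ h, g * h = h * g) :
    Subgroup.center (SL3 F) = p.ker := by
  ext g
  rw [Subgroup.mem_center_iff, MonoidHom.mem_ker, hk]
  exact forall_congr' fun h => eq_comm

/-- the isomorphism of `PSL(3,F)` and `X` -/
noncomputable def eX (p : SL3 F →* X) (hp : ∀ x, ∃ g, p g = x)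
    (hk : ∀ g, p g = 1 ↔ ∀ h, g * h = h * g) : PSL3 F ≃* X :=
  (QuotientGroup.quotientMulEquivOfEq (ker_eq p hk)).trans
    (QuotientGroup.quotientKerEquivOfSurjective p hp)

theorem eX_mk (p : SL3 F →* X) (hp : ∀ x, ∃ g, p g = x)
    (hk : ∀ g, p g = 1 ↔ ∀ h, g * h = h * g) (g : SL3 F) :
    eX p hp hk (QuotientGroup.mk g) = p g := rfl

/-- the isomorphism of the automorphism groups -/
noncomputable def aX (p : SL3 F →* X) (hp : ∀ x, ∃ g, p g = x)
    (hk : ∀ g, p g = 1 ↔ ∀ h, g * h = h * g) : MulAut (PSL3 F) ≃* MulAut X :=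
  MulAut.congr (eX p hp hk)

theorem aX_apply (p : SL3 F →* X) (hp : ∀ x, ∃ g, p g = x)
    (hk : ∀ g, p g = 1 ↔ ∀ h, g * h = h * g) (α : MulAut (SL3 F)) (g : SL3 F) :
    aX p hp hk (indAut F α) (p g) = p (α g) := by
  show eX p hp hk (indAut F α ((eX p hp hk).symm (p g))) = p (α g)
  rw [← eX_mk p hp hk g, MulEquiv.symm_apply_apply]
  rfl

theorem eq_aX (p : SL3 F →* X) (hp : ∀ x, ∃ g, p g = x)
    (hk : ∀ g, p g = 1 ↔ ∀ h, g * h = h * g) (α : MulAut (SL3 F)) (φ : MulAut X) :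
    φ = aX p hp hk (indAut F α) ↔ ∀ g, φ (p g) = p (α g) := by
  constructor
  · rintro rfl g
    exact aX_apply p hp hk α g
  · intro h
    apply MulEquiv.ext
    intro x
    obtain ⟨g, rfl⟩ := hp x
    rw [h, aX_apply]

theorem inner_iff (p : SL3 F →* X) (hp : ∀ x, ∃ g, p g = x)
    (hk : ∀ g, p g = 1 ↔ ∀ h, g * h = h * g) (φ : MulAut X) :
    Slim.Inner φ ↔ ∃ m : SL3 F, φ = aX p hp hk (indAut F (MulAut.conj m)) := by
  constructor
  · rintro ⟨x, h⟩
    obtain ⟨m, rfl⟩ := hp x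
    refine ⟨m, (eq_aX p hp hk _ φ).2 fun g => ?_⟩
    rw [h, MulAut.conj_apply, map_mul, map_mul, map_inv]
  · rintro ⟨m, h⟩
    refine ⟨p m, fun y => ?_⟩
    obtain ⟨g, rfl⟩ := hp y
    rw [(eq_aX p hp hk _ φ).1 h g, MulAut.conj_apply, map_mul, map_mul, map_inv]

theorem diagonal_iff (p : SL3 F →* X) (hp : ∀ x, ∃ g, p g = x)
    (hk : ∀ g, p g = 1 ↔ ∀ h, g * h = h * g) (φ : MulAut X) :
    Slim.Diagonal p φ ↔ ∃ P : GL (Fin 3) F, φ = aX p hp hk (indAut F (diagAut P)) := by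
  constructor
  · rintro ⟨P, Q, hPQ, h⟩
    have hQP : Q * P = 1 := mul_eq_one_comm.1 hPQ
    refine ⟨⟨P, Q, hPQ, hQP⟩, (eq_aX p hp hk _ φ).2 fun g => ?_⟩
    exact h g _ rfl
  · rintro ⟨P, h⟩
    refine ⟨P.1, (P⁻¹).1, by rw [← Units.val_mul, mul_inv_cancel, Units.val_one],
      fun g k hk' => ?_⟩
    rw [(eq_aX p hp hk _ φ).1 h g]
    congr 1
    apply Subtype.ext
    exact hk'.symm

theorem frob_iff (p : SL3 F →* X) (hp : ∀ x, ∃ g, p g = x)
    (hk : ∀ g, p g = 1 ↔ ∀ h, g * h = h * g) (φ : MulAut X) :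
    Slim.Frob p φ ↔ ∃ s : F ≃+* F, φ = aX p hp hk (indAut F (fieldAut s)) := by
  constructor
  · rintro ⟨s, h⟩
    refine ⟨s, (eq_aX p hp hk _ φ).2 fun g => ?_⟩
    exact h g _ fun i j => rfl
  · rintro ⟨s, h⟩
    refine ⟨s, fun g k hk' => ?_⟩
    rw [(eq_aX p hp hk _ φ).1 h g]
    congr 1
    apply Subtype.ext
    ext i j
    exact (hk' i j).symm

theorem graph_iff (p : SL3 F →* X) (hp : ∀ x, ∃ g, p g = x)
    (hk : ∀ g, p g = 1 ↔ ∀ h, g * h = h * g) (φ : MulAut X) :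
    Slim.Graph p φ ↔ φ = aX p hp hk (indAut F (graphAut F)) := by
  have tr : ∀ g h : SL3 F, h.1ᵀ * g.1 = 1 ↔ h = graphAut F g := by
    intro g h
    have e1 : h = graphAut F g ↔ h.transpose = g⁻¹ := by
      show h = (g⁻¹).transpose ↔ _
      constructor
      · intro e
        rw [e, tr_tr]
      · intro e
        rw [← e, tr_tr]
    rw [e1, eq_inv_iff_mul_eq_one]
    constructor
    · intro e
      apply Subtype.ext
      exact e
    · intro e
      exact congrArg Subtype.val e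
  rw [eq_aX]
  constructor
  · intro h g
    exact h g _ ((tr g _).2 rfl)
  · intro h g k hk'
    rw [h g, (tr g k).1 hk']

theorem conj_mem (p : SL3 F →* X) (hp : ∀ x, ∃ g, p g = x)
    (hk : ∀ g, p g = 1 ↔ ∀ h, g * h = h * g) (φ : MulAut X) :
    (∃ m : SL3 F, φ = aX p hp hk (indAut F (MulAut.conj m))) ↔
      φ ∈ (InnP F).map (aX p hp hk : MulAut (PSL3 F) →* MulAut X) := by
  constructor
  · rintro ⟨m, rfl⟩
    refine ⟨indAut F (MulAut.conj m), ⟨QuotientGroup.mk m, ?_⟩, rfl⟩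
    apply MulEquiv.ext
    intro x
    induction x using QuotientGroup.induction_on with
    | H g => rfl
  · rintro ⟨ψ, ⟨x, hx⟩, rfl⟩
    induction x using QuotientGroup.induction_on with
    | H m =>
      refine ⟨m, ?_⟩
      have : ψ = indAut F (MulAut.conj m) := by
        rw [← hx]
        apply MulEquiv.ext
        intro x
        induction x using QuotientGroup.induction_on with
        | H g => rfl
      rw [this]
      rfl


theorem gen_eq (p : SL3 F →* X) (hp : ∀ x, ∃ g, p g = x)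
    (hk : ∀ g, p g = 1 ↔ ∀ h, g * h = h * g) (S : Set (MulAut (SL3 F))) (T : Set (MulAut X))
    (h : ∀ φ, φ ∈ T ↔ ∃ α ∈ S, φ = aX p hp hk (indAut F α)) :
    ((Subgroup.closure S).map (indAut F)).map (aX p hp hk : MulAut (PSL3 F) →* MulAut X)
      = Subgroup.closure T := by
  rw [MonoidHom.map_closure, MonoidHom.map_closure, ← Set.image_comp]
  congr 1
  ext φ
  rw [h]
  constructor
  · rintro ⟨α, hα, rfl⟩
    exact ⟨α, hα, rfl⟩
  · rintro ⟨α, hα, rfl⟩
    exact ⟨α, hα, rfl⟩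

theorem autP (p : SL3 F →* X) (hp : ∀ x, ∃ g, p g = x)
    (hk : ∀ g, p g = 1 ↔ ∀ h, g * h = h * g) :
    (AutP F).map (aX p hp hk : MulAut (PSL3 F) →* MulAut X) =
      Subgroup.closure {φ | Slim.Inner φ ∨ Slim.Diagonal p φ ∨ Slim.Frob p φ ∨ Slim.Graph p φ} := by
  refine gen_eq p hp hk _ _ fun φ => ?_
  rw [Set.mem_ofPred_eq, inner_iff p hp hk, diagonal_iff p hp hk, frob_iff p hp hk,
    graph_iff p hp hk]
  constructor
  · rintro (⟨m, h⟩ | ⟨P, h⟩ | ⟨s, h⟩ | h)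
    · exact ⟨_, Or.inl (Or.inl (Or.inl ⟨m, rfl⟩)), h⟩
    · exact ⟨_, Or.inl (Or.inl (Or.inr ⟨P, rfl⟩)), h⟩
    · exact ⟨_, Or.inl (Or.inr ⟨s, rfl⟩), h⟩
    · exact ⟨_, Or.inr rfl, h⟩
  · rintro ⟨α, (((⟨m, rfl⟩ | ⟨P, rfl⟩) | ⟨s, rfl⟩) | rfl), h⟩
    · exact Or.inl ⟨m, h⟩
    · exact Or.inr (Or.inl ⟨P, h⟩)
    · exact Or.inr (Or.inr (Or.inl ⟨s, h⟩))
    · exact Or.inr (Or.inr (Or.inr h))

theorem diagP (p : SL3 F →* X) (hp : ∀ x, ∃ g, p g = x)
    (hk : ∀ g, p g = 1 ↔ ∀ h, g * h = h * g) :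
    (DiagP F).map (aX p hp hk : MulAut (PSL3 F) →* MulAut X) =
      Subgroup.closure {φ | Slim.Diagonal p φ ∨ Slim.Graph p φ} := by
  refine gen_eq p hp hk _ _ fun φ => ?_
  rw [Set.mem_ofPred_eq, diagonal_iff p hp hk, graph_iff p hp hk]
  constructor
  · rintro (⟨P, h⟩ | h)
    · exact ⟨_, Or.inl ⟨P, rfl⟩, h⟩
    · exact ⟨_, Or.inr rfl, h⟩
  · rintro ⟨α, (⟨P, rfl⟩ | rfl), h⟩
    · exact Or.inl ⟨P, h⟩
    · exact Or.inr h

theorem graphP (p : SL3 F →* X) (hp : ∀ x, ∃ g, p g = x)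
    (hk : ∀ g, p g = 1 ↔ ∀ h, g * h = h * g) :
    (GraphP F).map (aX p hp hk : MulAut (PSL3 F) →* MulAut X) =
      Subgroup.closure {φ | Slim.Inner φ ∨ Slim.Graph p φ} := by
  refine gen_eq p hp hk _ _ fun φ => ?_
  rw [Set.mem_ofPred_eq, inner_iff p hp hk, graph_iff p hp hk]
  constructor
  · rintro (⟨m, h⟩ | h)
    · exact ⟨_, Or.inl ⟨m, rfl⟩, h⟩
    · exact ⟨_, Or.inr rfl, h⟩
  · rintro ⟨α, (⟨m, rfl⟩ | rfl), h⟩
    · exact Or.inl ⟨m, h⟩
    · exact Or.inr h

theorem inn_le (p : SL3 F →* X) (hp : ∀ x, ∃ g, p g = x)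
    (hk : ∀ g, p g = 1 ↔ ∀ h, g * h = h * g) (G : Subgroup (MulAut X)) :
    InnP F ≤ G.comap (aX p hp hk : MulAut (PSL3 F) →* MulAut X) ↔
      ∀ φ, Slim.Inner φ → φ ∈ G := by
  rw [← Subgroup.map_le_iff_le_comap]
  constructor
  · intro h φ hφ
    exact h ((conj_mem p hp hk φ).1 ((inner_iff p hp hk φ).1 hφ))
  · intro h φ hφ
    exact h φ ((inner_iff p hp hk φ).2 ((conj_mem p hp hk φ).2 hφ))

theorem between_iff (p : SL3 F →* X) (hp : ∀ x, ∃ g, p g = x)
    (hk : ∀ g, p g = 1 ↔ ∀ h, g * h = h * g) (G : Subgroup (MulAut X)) :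
    (InnP F ≤ G.comap (aX p hp hk : MulAut (PSL3 F) →* MulAut X) ∧
      G.comap (aX p hp hk : MulAut (PSL3 F) →* MulAut X) ≤ AutP F) ↔ Slim.Between p G := by
  rw [inn_le, ← Subgroup.map_le_map_iff_of_injective (f := (aX p hp hk : _ →* MulAut X))
    (aX p hp hk).injective, autP,
    Subgroup.map_comap_eq_self_of_surjective (aX p hp hk).surjective]
  rfl

theorem adm_iff (p : SL3 F →* X) (hp : ∀ x, ∃ g, p g = x)
    (hk : ∀ g, p g = 1 ↔ ∀ h, g * h = h * g) (G : Subgroup (MulAut X)) :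
    (G.comap (aX p hp hk : MulAut (PSL3 F) →* MulAut X) = DiagP F ∨
      ∃ P : GL (Fin 3) F, G.comap (aX p hp hk : MulAut (PSL3 F) →* MulAut X) =
        (GraphP F).map (MulAut.conj (indAut F (diagAut P))).toMonoidHom) ↔ Slim.Adm p G := by
  have hs : Function.Surjective (aX p hp hk : MulAut (PSL3 F) →* MulAut X) :=
    (aX p hp hk).surjective
  have hi : Function.Injective (aX p hp hk : MulAut (PSL3 F) →* MulAut X) :=
    (aX p hp hk).injective
  refine or_congr ?_ ?_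
  · rw [← diagP p hp hk]
    constructor
    · intro h
      rw [← h, Subgroup.map_comap_eq_self_of_surjective hs]
    · intro h
      rw [h, Subgroup.comap_map_eq_self_of_injective hi]
  · have key : ∀ P : GL (Fin 3) F,
        G.comap (aX p hp hk : MulAut (PSL3 F) →* MulAut X) =
          (GraphP F).map (MulAut.conj (indAut F (diagAut P))).toMonoidHom ↔
        ∀ φ, φ ∈ G ↔ (aX p hp hk (indAut F (diagAut P)))⁻¹ * φ *
          (aX p hp hk (indAut F (diagAut P))) ∈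
            Subgroup.closure {ψ | Slim.Inner ψ ∨ Slim.Graph p ψ} := by
      intro P
      have k1 : ∀ ψ : MulAut (PSL3 F),
          ψ ∈ (GraphP F).map (MulAut.conj (indAut F (diagAut P))).toMonoidHom ↔
          (aX p hp hk (indAut F (diagAut P)))⁻¹ * aX p hp hk ψ *
            (aX p hp hk (indAut F (diagAut P))) ∈
            Subgroup.closure {ψ | Slim.Inner ψ ∨ Slim.Graph p ψ} := by
        intro ψ
        rw [← graphP p hp hk, ← map_inv, ← map_mul, ← map_mul]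
        have k2 : (aX p hp hk) ((indAut F (diagAut P))⁻¹ * ψ * indAut F (diagAut P)) ∈
            (GraphP F).map (aX p hp hk : MulAut (PSL3 F) →* MulAut X) ↔
            (indAut F (diagAut P))⁻¹ * ψ * indAut F (diagAut P) ∈ GraphP F :=
          Subgroup.mem_map_iff_mem hi
        rw [k2]
        constructor
        · rintro ⟨χ, hχ, rfl⟩
          have : (indAut F (diagAut P))⁻¹ *
              ((MulAut.conj (indAut F (diagAut P))).toMonoidHom χ) * indAut F (diagAut P) = χ := by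
            show (indAut F (diagAut P))⁻¹ *
              (indAut F (diagAut P) * χ * (indAut F (diagAut P))⁻¹) * indAut F (diagAut P) = χ
            group
          rw [this]
          exact hχ
        · intro h
          refine ⟨_, h, ?_⟩
          show indAut F (diagAut P) * ((indAut F (diagAut P))⁻¹ * ψ * indAut F (diagAut P)) *
            (indAut F (diagAut P))⁻¹ = ψ
          group
      constructor
      · intro h φ
        obtain ⟨ψ, rfl⟩ := hs φ
        refine Iff.trans ?_ (k1 ψ)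
        rw [← h]
        exact Iff.rfl
      · intro h
        ext ψ
        rw [k1]
        exact h (aX p hp hk ψ)
    constructor
    · rintro ⟨P, h⟩
      exact ⟨_, (diagonal_iff p hp hk _).2 ⟨P, rfl⟩, (key P).1 h⟩
    · rintro ⟨d, hd, h⟩
      obtain ⟨P, rfl⟩ := (diagonal_iff p hp hk d).1 hd
      exact ⟨P, (key P).2 h⟩

/-- the statement in the slim form follows from the statement `FNNPStmt` -/
theorem slim (H : FNNPStmt) (F : Type) [Field F] [Finite F] (hsq : ¬ IsSquare (Nat.card F))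
    (X : Type) [Group X] (p : SpecialLinearGroup (Fin 3) F →* X) (hp : ∀ x, ∃ g, p g = x)
    (hk : ∀ g, p g = 1 ↔ ∀ h, g * h = h * g) (G : Subgroup (MulAut X)) :
    (Slim.Between p G → ((∃ r, Slim.HasStringC G r) ↔ Slim.Adm p G)) ∧
    (Slim.Adm p G → Slim.Between p G ∧
      IsGreatest {r | Slim.HasStringC G r} (if Nat.card F = 2 then 3 else 4)) := by
  obtain ⟨h1, h2⟩ := H F hsq
  have hset : {r | Slim.HasStringC G r} = {r | Pool.SCG.HasStringC
      (G.comap (aX p hp hk : MulAut (PSL3 F) →* MulAut X)) r} := by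
    ext r
    exact (has_comap (aX p hp hk) G r).symm
  constructor
  · intro hb
    obtain ⟨b1, b2⟩ := (between_iff p hp hk G).2 hb
    rw [← adm_iff p hp hk G, ← h1 _ b1 b2]
    exact exists_congr fun r => (has_comap (aX p hp hk) G r).symm
  · intro ha
    obtain ⟨c1, c2, c3⟩ := h2 _ ((adm_iff p hp hk G).2 ha)
    refine ⟨(between_iff p hp hk G).1 ⟨c1, c2⟩, ?_⟩
    rw [hset]
    exact c3

end Pool.SCG3.SlimConv
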